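import Mathlib

/-!
# Augmented graphs and 3-augmented Zarankiewicz numbers: definitions
-/

set_option autoImplicit false

namespace Pool.Agent.R84.Aug

open Finset

/-- The cells of the grid `[m] × [n]`. -/
abbrev Cell (m n : ℕ) : Type := Fin m × Fin n

/-- An augmented graph: a set `E1` of cells, a set `E2` of 2-element sets of cells and a set `E3` of
3-element sets of cells. -/
structure AugGraph (m n : ℕ) where
  /-- the 1-edges -/
  E1 : Finset (Cell m n)
  /-- the 2-edges -/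
  E2 : Finset (Finset (Cell m n))
  /-- the 3-edges -/
  E3 : Finset (Finset (Cell m n))
  card₂ : ∀ e ∈ E2, e.card = 2
  card₃ : ∀ e ∈ E3, e.card = 3

variable {m n : ℕ}

/-- The cell `c` is occupied: it lies in `E1` or in some 2-edge or 3-edge. -/
def AugGraph.Occupied (G : AugGraph m n) (c : Cell m n) : Prop :=
  c ∈ G.E1 ∨ ∃ e ∈ G.E2 ∪ G.E3, c ∈ e

/-- The cell `c` lies in `E1` or in a 2-edge. -/
def AugGraph.InOneTwo (G : AugGraph m n) (c : Cell m n) : Prop :=
  c ∈ G.E1 ∨ ∃ e ∈ G.E2, c ∈ e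

/-- `G` is simple: no cell lies in more than one edge. -/
def AugGraph.Simple (G : AugGraph m n) : Prop :=
  (∀ e ∈ G.E2 ∪ G.E3, ∀ c ∈ e, c ∉ G.E1) ∧
  (∀ e ∈ G.E2 ∪ G.E3, ∀ e' ∈ G.E2 ∪ G.E3, e ≠ e' → Disjoint e e')

/-- Condition 1 for a set `E` of cells: a rectangle with all four corners in `E`. -/
def HasRect (E : Finset (Cell m n)) : Prop :=
  ∃ (i k : Fin m) (j l : Fin n), i ≠ k ∧ j ≠ l ∧ (i, j) ∈ E ∧ (i, l) ∈ E ∧ (k, j) ∈ E ∧ (k, l) ∈ E

/-- The four corners of a rectangle. -/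
def rect (i k : Fin m) (j l : Fin n) : Finset (Cell m n) := {(i, j), (i, l), (k, j), (k, l)}

/-- Condition 2: a rectangle with all four corners occupied, which is covered by exactly two edges of
`E2 ∪ E3`, each of which contains two of the corners. -/
def AugGraph.Cond2 (G : AugGraph m n) : Prop :=
  ∃ (i k : Fin m) (j l : Fin n), i ≠ k ∧ j ≠ l ∧ (∀ c ∈ rect i k j l, G.Occupied c) ∧
    ∃ e ∈ G.E2 ∪ G.E3, ∃ e' ∈ G.E2 ∪ G.E3, e ≠ e' ∧ (rect i k j l ∩ e).card = 2 ∧
      (rect i k j l ∩ e').card = 2 ∧ rect i k j l ⊆ e ∪ e'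

/-- Condition 3: a 2-edge `(i,j;p,q)` and a cell `(k,l)` outside its rows and columns such that the
five cells `(k,j), (k,l), (k,q), (i,l), (p,l)` lie in `E1` or in a 2-edge; they have to be distinct if
the 2-edge is non-degenerate. -/
def AugGraph.Cond3 (G : AugGraph m n) : Prop :=
  ∃ (i p k : Fin m) (j q l : Fin n), {(i, j), (p, q)} ∈ G.E2 ∧ k ∉ ({i, p} : Finset (Fin m)) ∧
    l ∉ ({j, q} : Finset (Fin n)) ∧
    (∀ c ∈ [(k, j), (k, l), (k, q), (i, l), (p, l)], G.InOneTwo c) ∧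
    (i ≠ p ∧ j ≠ q → [(k, j), (k, l), (k, q), (i, l), (p, l)].Nodup)

/-- Condition 4: a 3-edge `(i,j;p,q;u,v)` and a cell `(k,l)` outside its rows and columns such that
the seven cells `(k,j), (k,l), (k,q), (k,v), (i,l), (p,l), (u,l)` are occupied; they have to be
distinct if the 3-edge is non-degenerate. -/
def AugGraph.Cond4 (G : AugGraph m n) : Prop :=
  ∃ (i p u k : Fin m) (j q v l : Fin n), {(i, j), (p, q), (u, v)} ∈ G.E3 ∧
    k ∉ ({i, p, u} : Finset (Fin m)) ∧ l ∉ ({j, q, v} : Finset (Fin n)) ∧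
    (∀ c ∈ [(k, j), (k, l), (k, q), (k, v), (i, l), (p, l), (u, l)], G.Occupied c) ∧
    ((i ≠ p ∧ i ≠ u ∧ p ≠ u) ∧ (j ≠ q ∧ j ≠ v ∧ q ≠ v) →
      [(k, j), (k, l), (k, q), (k, v), (i, l), (p, l), (u, l)].Nodup)

/-- `G` is generalized cycle-free: none of the conditions 1 to 4 occurs. -/
def AugGraph.CycleFree (G : AugGraph m n) : Prop :=
  ¬ HasRect G.E1 ∧ ¬ G.Cond2 ∧ ¬ G.Cond3 ∧ ¬ G.Cond4

/-- The Zarankiewicz number `z(m,n)`. -/
noncomputable def z (m n : ℕ) : ℕ :=
  sSup {N : ℕ | ∃ E : Finset (Cell m n), ¬ HasRect E ∧ E.card = N}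

/-- The number of edges. -/
def AugGraph.size (G : AugGraph m n) : ℕ := G.E1.card + G.E2.card + G.E3.card

/-- `z_{3A}(m,n)`: the maximum number of edges of a simple generalized cycle-free augmented graph. -/
noncomputable def z3A (m n : ℕ) : ℕ :=
  sSup {N : ℕ | ∃ G : AugGraph m n, G.Simple ∧ G.CycleFree ∧ G.size = N}

/-- `z_{3L}(m,n)`: the same maximum over those graphs with `|E1| = z(m,n)`. -/
noncomputable def z3L (m n : ℕ) : ℕ :=
  sSup {N : ℕ | ∃ G : AugGraph m n, G.Simple ∧ G.CycleFree ∧ G.E1.card = z m n ∧ G.size = N}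

theorem size_le (G : AugGraph m n) :
    G.size ≤ Fintype.card (Cell m n) + Fintype.card (Finset (Cell m n)) +
      Fintype.card (Finset (Cell m n)) :=
  Nat.add_le_add (Nat.add_le_add (card_le_univ _) (card_le_univ _)) (card_le_univ _)

theorem le_z3A (G : AugGraph m n) (h1 : G.Simple) (h2 : G.CycleFree) : G.size ≤ z3A m n :=
  le_csSup ⟨_, by rintro N ⟨G, _, _, rfl⟩; exact size_le G⟩ ⟨G, h1, h2, rfl⟩

theorem le_z3L (G : AugGraph m n) (h1 : G.Simple) (h2 : G.CycleFree) (h3 : G.E1.card = z m n) :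
    G.size ≤ z3L m n :=
  le_csSup ⟨_, by rintro N ⟨G, _, _, _, rfl⟩; exact size_le G⟩ ⟨G, h1, h2, h3, rfl⟩

theorem mem_rect {i k x : Fin m} {j l y : Fin n} :
    (x, y) ∈ rect i k j l ↔ (x = i ∨ x = k) ∧ (y = j ∨ y = l) := by
  simp only [rect, mem_insert, mem_singleton, Prod.mk.injEq]
  constructor
  · rintro (h | h | h | h)
    · exact ⟨Or.inl h.1, Or.inl h.2⟩
    · exact ⟨Or.inl h.1, Or.inr h.2⟩
    · exact ⟨Or.inr h.1, Or.inl h.2⟩
    · exact ⟨Or.inr h.1, Or.inr h.2⟩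
  · rintro ⟨h | h, h' | h'⟩
    · exact Or.inl ⟨h, h'⟩
    · exact Or.inr (Or.inl ⟨h, h'⟩)
    · exact Or.inr (Or.inr (Or.inl ⟨h, h'⟩))
    · exact Or.inr (Or.inr (Or.inr ⟨h, h'⟩))

/-- A family of matched cells on opposite sides: the data of all our configurations. Rows and
columns carry a side; a matched cell pair consists of a cell on the side `false` and a cell on the side
`true`, and every occupied cell in a column used by the matching is on the side of its column. -/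
theorem cycleFree_of_sides (G : AugGraph m n) (hE1 : ¬ HasRect G.E1) (hE3 : G.E3 = ∅)
    (A : Fin m → Prop) (F T : Fin n → Prop)
    (hF : ∀ i j, F j → G.Occupied (i, j) → A i) (hT : ∀ i j, T j → G.Occupied (i, j) → ¬ A i)
    (hE2 : ∀ e ∈ G.E2, ∃ i j p q, A i ∧ F j ∧ ¬ A p ∧ T q ∧ e = {(i, j), (p, q)}) :
    G.CycleFree := by
  have hocc : ∀ c, G.InOneTwo c → G.Occupied c := by
    rintro c (h | ⟨e, he, hc⟩)
    · exact Or.inl h
    · exact Or.inr ⟨e, mem_union_left _ he, hc⟩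
  refine ⟨hE1, ?_, ?_, ?_⟩
  · rintro ⟨i, k, j, l, _, _, hr, e, he, e', _, _, h2, _⟩
    rw [hE3, union_empty] at he
    obtain ⟨r, c, p, q, hr1, hc, hp, hq, rfl⟩ := hE2 e he
    have hsub : ({(r, c), (p, q)} : Finset (Cell m n)) ⊆ rect i k j l := by
      have h3 := G.card₂ _ he
      have h4 : rect i k j l ∩ {(r, c), (p, q)} = {(r, c), (p, q)} :=
        Finset.eq_of_subset_of_card_le inter_subset_right (by rw [h2, h3])
      rw [← h4]
      exact inter_subset_left
    have a1 : (r, c) ∈ rect i k j l := hsub (by simp)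
    have a2 : (p, q) ∈ rect i k j l := hsub (by simp)
    have a3 : (r, q) ∈ rect i k j l := mem_rect.2 ⟨(mem_rect.1 a1).1, (mem_rect.1 a2).2⟩
    exact hT r q hq (hr _ a3) hr1
  · rintro ⟨i, p, k, j, q, l, he, _, _, hocc5, _⟩
    obtain ⟨r, c, s, t, hr1, hc, hp, hq, h⟩ := hE2 _ he
    have hj := hocc _ (hocc5 (k, j) (by simp))
    have hq' := hocc _ (hocc5 (k, q) (by simp))
    have b1 : (r, c) = (i, j) ∨ (r, c) = (p, q) := by
      have : (r, c) ∈ ({(i, j), (p, q)} : Finset (Cell m n)) := by rw [h]; simp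
      simpa using this
    have b2 : (s, t) = (i, j) ∨ (s, t) = (p, q) := by
      have : (s, t) ∈ ({(i, j), (p, q)} : Finset (Cell m n)) := by rw [h]; simp
      simpa using this
    have hk1 : A k := by
      rcases b1 with b | b <;> simp only [Prod.mk.injEq] at b
      · exact hF k j (b.2 ▸ hc) hj
      · exact hF k q (b.2 ▸ hc) hq'
    have hk2 : ¬ A k := by
      rcases b2 with b | b <;> simp only [Prod.mk.injEq] at b
      · exact hT k j (b.2 ▸ hq) hj
      · exact hT k q (b.2 ▸ hq) hq'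
    exact hk2 hk1
  · rintro ⟨i, p, u, k, j, q, v, l, he, _⟩
    rw [hE3] at he
    exact absurd he (notMem_empty _)

end Pool.Agent.R84.Aug
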