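import Mathlib

/-!
# The theorem of Erdos and Gallai on paths, in a general form
-/

set_option autoImplicit false

namespace Pool.Agent.R84.EG

open Finset SimpleGraph

variable {V : Type*} [DecidableEq V] (G : SimpleGraph V) [DecidableRel G.Adj]

/-- The values `f 0, …, f m` form a path in `G` inside `S`. -/
def PathIn (S : Finset V) (m : ℕ) (f : ℕ → V) : Prop :=
  (∀ i ≤ m, f i ∈ S) ∧ (∀ i < m, G.Adj (f i) (f (i + 1))) ∧ Set.InjOn f (Set.Iic m)

/-- neighbours of `v` in `S` -/
def nb (S : Finset V) (v : V) : Finset V := S.filter fun y => G.Adj v y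

/-- twice the number of edges inside `S` -/
def E (S : Finset V) : ℕ := ∑ v ∈ S, (nb G S v).card

theorem E_mono_erase {S : Finset V} {v : V} (hv : v ∈ S) :
    E G S = E G (S.erase v) + 2 * (nb G S v).card := by
  unfold E
  rw [← Finset.add_sum_erase S _ hv]
  have h1 : ∀ x ∈ S.erase v, (nb G S x).card = (nb G (S.erase v) x).card +
      if G.Adj v x then 1 else 0 := by
    intro x hx
    have hne := (mem_erase.1 hx).1
    by_cases h : G.Adj v x
    · rw [if_pos h]
      have h2 : nb G S x = insert v (nb G (S.erase v) x) := by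
        ext y
        simp only [nb, mem_filter, mem_insert, mem_erase]
        constructor
        · rintro ⟨h3, h4⟩
          by_cases h5 : y = v
          · exact Or.inl h5
          · exact Or.inr ⟨⟨h5, h3⟩, h4⟩
        · rintro (rfl | ⟨⟨_, h3⟩, h4⟩)
          · exact ⟨hv, h.symm⟩
          · exact ⟨h3, h4⟩
      rw [h2, card_insert_of_notMem]
      simp [nb]
    · rw [if_neg h, add_zero]
      congr 1
      ext y
      simp only [nb, mem_filter, mem_erase]
      constructor
      · rintro ⟨h3, h4⟩
        exact ⟨⟨fun h5 => h (h5 ▸ h4.symm), h3⟩, h4⟩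
      · rintro ⟨⟨_, h3⟩, h4⟩
        exact ⟨h3, h4⟩
  rw [Finset.sum_congr rfl h1, Finset.sum_add_distrib, ← Finset.card_filter]
  have h2 : ((S.erase v).filter fun x => G.Adj v x) = nb G S v := by
    ext y
    simp only [nb, mem_filter, mem_erase]
    constructor
    · rintro ⟨⟨_, h3⟩, h4⟩
      exact ⟨h3, h4⟩
    · rintro ⟨h3, h4⟩
      exact ⟨⟨fun h5 => G.loopless.irrefl v (h5 ▸ h4), h3⟩, h4⟩
  rw [h2]
  ring

theorem E_split {S C : Finset V} (hC : C ⊆ S) (hcl : ∀ x ∈ C, ∀ y ∈ S, G.Adj x y → y ∈ C) :
    E G S = E G C + E G (S \ C) := by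
  unfold E
  rw [← Finset.sum_sdiff hC, add_comm]
  congr 1
  · refine Finset.sum_congr rfl fun x hx => ?_
    congr 1
    ext y
    simp only [nb, mem_filter]
    constructor
    · rintro ⟨h3, h4⟩
      exact ⟨hcl x hx y h3 h4, h4⟩
    · rintro ⟨h3, h4⟩
      exact ⟨hC h3, h4⟩
  · refine Finset.sum_congr rfl fun x hx => ?_
    congr 1
    ext y
    simp only [nb, mem_filter, mem_sdiff]
    constructor
    · rintro ⟨h3, h4⟩
      exact ⟨⟨h3, fun h5 => (mem_sdiff.1 hx).2 (hcl y h5 x (mem_sdiff.1 hx).1 h4.symm)⟩, h4⟩
    · rintro ⟨⟨h3, _⟩, h4⟩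
      exact ⟨h3, h4⟩

theorem exists_closed (k : ℕ) (S : Finset V) (hS : S.Nonempty)
    (hdeg : ∀ v ∈ S, k ≤ 2 * (nb G S v).card) (hk : 1 ≤ k)
    (hno : ∀ m f, PathIn G S m f → m + 1 ≤ k) :
    ∃ C ⊆ S, C.Nonempty ∧ C.card ≤ k ∧ ∀ x ∈ C, ∀ y ∈ S, G.Adj x y → y ∈ C := by
  classical
  -- a longest path
  obtain ⟨v₀, hv₀⟩ := hS
  have hex : ∃ m, ∃ f, PathIn G S m f := ⟨0, fun _ => v₀, fun _ _ => hv₀, fun i hi => by omega, by
    intro i hi j hj _
    simp only [Set.mem_Iic] at hi hj
    omega⟩
  obtain ⟨m, ⟨f, hf⟩, hmax⟩ : ∃ m, (∃ f, PathIn G S m f) ∧ ∀ m' f, PathIn G S m' f → m' ≤ m := by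
    have hb : ∀ m, (∃ f, PathIn G S m f) → m ≤ k := fun m ⟨f, hf⟩ => by
      have := hno m f hf
      omega
    refine ⟨Nat.findGreatest (fun m => ∃ f, PathIn G S m f) k, ?_, ?_⟩
    · obtain ⟨m, hm⟩ := hex
      exact Nat.findGreatest_spec (P := fun m => ∃ f, PathIn G S m f) (hb m hm) hm
    · intro m' f hf
      exact Nat.le_findGreatest (hb m' ⟨f, hf⟩) ⟨f, hf⟩
  have hmk := hno m f hf
  obtain ⟨hfS, hfadj, hfinj⟩ := hf
  -- neighbours of the ends lie on the path
  have hend0 : ∀ y ∈ S, G.Adj (f 0) y → ∃ i, i ≤ m ∧ f i = y := by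
    intro y hy hadj
    by_contra hcon
    push Not at hcon
    have h1 : PathIn G S (m + 1) (fun i => if i = 0 then y else f (i - 1)) := by
      refine ⟨?_, ?_, ?_⟩
      · intro i hi
        by_cases h : i = 0
        · simp [h, hy]
        · simp only [h, if_false]
          exact hfS _ (by omega)
      · intro i hi
        by_cases h : i = 0
        · simp [h, hadj.symm]
        · simp only [h, if_false, Nat.add_eq_zero_iff, one_ne_zero, and_false]
          have := hfadj (i - 1) (by omega)
          have e : i - 1 + 1 = i + 1 - 1 := by omega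
          rwa [e] at this
      · intro i hi j hj hij
        simp only [Set.mem_Iic] at hi hj
        by_cases h : i = 0 <;> by_cases h' : j = 0 <;> simp only [h, h', if_true, if_false] at hij
        · omega
        · exact absurd hij.symm (hcon _ (by omega))
        · exact absurd hij (hcon _ (by omega))
        · have := hfinj (x₁ := i - 1) (x₂ := j - 1) (by simp only [Set.mem_Iic]; omega)
            (by simp only [Set.mem_Iic]; omega) hij
          omega
    have := hmax _ _ h1
    omega
  have hendm : ∀ y ∈ S, G.Adj (f m) y → ∃ i, i ≤ m ∧ f i = y := by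
    intro y hy hadj
    by_contra hcon
    push Not at hcon
    have h1 : PathIn G S (m + 1) (fun i => if i = m + 1 then y else f i) := by
      refine ⟨?_, ?_, ?_⟩
      · intro i hi
        by_cases h : i = m + 1
        · simp [h, hy]
        · simp only [h, if_false]
          exact hfS _ (by omega)
      · intro i hi
        have h : i ≠ m + 1 := by omega
        by_cases h' : i = m
        · subst h'
          simp [hadj]
        · have h'' : i + 1 ≠ m + 1 := by omega
          simp only [h, h'', if_false]
          exact hfadj i (by omega)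
      · intro i hi j hj hij
        simp only [Set.mem_Iic] at hi hj
        by_cases h : i = m + 1 <;> by_cases h' : j = m + 1 <;>
          simp only [h, h', if_true, if_false] at hij
        · omega
        · exact absurd hij.symm (hcon _ (by omega))
        · exact absurd hij (hcon _ (by omega))
        · exact hfinj (by simp only [Set.mem_Iic]; omega) (by simp only [Set.mem_Iic]; omega) hij
    have := hmax _ _ h1
    omega
  -- the crossing
  let Ia : Finset ℕ := (range m).filter fun i => G.Adj (f 0) (f (i + 1))
  let Ib : Finset ℕ := (range m).filter fun i => G.Adj (f m) (f i)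
  have hIa : (nb G S (f 0)).card ≤ Ia.card := by
    have : nb G S (f 0) ⊆ Ia.image fun i => f (i + 1) := by
      intro y hy
      simp only [nb, mem_filter] at hy
      obtain ⟨i, hi, rfl⟩ := hend0 y hy.1 hy.2
      have hi0 : i ≠ 0 := fun h => G.loopless.irrefl _ (h ▸ hy.2)
      refine mem_image.2 ⟨i - 1, ?_, ?_⟩
      · simp only [Ia, mem_filter, mem_range]
        have e : i - 1 + 1 = i := by omega
        rw [e]
        exact ⟨by omega, hy.2⟩
      · have e : i - 1 + 1 = i := by omega
        simp only [e]
    exact (card_le_card this).trans card_image_le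
  have hIb : (nb G S (f m)).card ≤ Ib.card := by
    have : nb G S (f m) ⊆ Ib.image f := by
      intro y hy
      simp only [nb, mem_filter] at hy
      obtain ⟨i, hi, rfl⟩ := hendm y hy.1 hy.2
      have him : i ≠ m := fun h => G.loopless.irrefl _ (h ▸ hy.2)
      refine mem_image.2 ⟨i, ?_, rfl⟩
      simp only [Ib, mem_filter, mem_range]
      exact ⟨by omega, hy.2⟩
    exact (card_le_card this).trans card_image_le
  have hda := hdeg _ (hfS 0 (Nat.zero_le _))
  have hdb := hdeg _ (hfS m le_rfl)
  obtain ⟨i, hi⟩ : (Ia ∩ Ib).Nonempty := by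
    rw [← card_pos]
    have h1 := card_union_add_card_inter Ia Ib
    have h2 : (Ia ∪ Ib).card ≤ m := by
      calc (Ia ∪ Ib).card ≤ (range m).card := card_le_card (union_subset (filter_subset _ _)
            (filter_subset _ _))
        _ = m := card_range m
    omega
  simp only [Ia, Ib, mem_inter, mem_filter, mem_range] at hi
  obtain ⟨⟨him, ha⟩, -, hb⟩ := hi
  -- the cycle
  let g : ℕ → V := fun j => if j ≤ i then f j else f (m + i + 1 - j)
  have hg1 : ∀ j ≤ i, g j = f j := fun j hj => by simp [g, hj]
  have hg2 : ∀ j, i < j → g j = f (m + i + 1 - j) := fun j hj => by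
    simp only [g]
    rw [if_neg (by omega)]
  have hgadj : ∀ j ≤ m, G.Adj (g j) (g ((j + 1) % (m + 1))) := by
    intro j hj
    rcases Nat.lt_or_ge j m with hjm | hjm
    · rw [Nat.mod_eq_of_lt (by omega)]
      rcases Nat.lt_trichotomy j i with h | h | h
      · rw [hg1 _ h.le, hg1 _ h]
        exact hfadj j (by omega)
      · subst h
        rw [hg1 _ le_rfl, hg2 _ (by omega)]
        have e : m + j + 1 - (j + 1) = m := by omega
        rw [e]
        exact hb.symm
      · rw [hg2 _ h, hg2 _ (by omega)]
        have e : m + i + 1 - j = m + i + 1 - (j + 1) + 1 := by omega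
        rw [e]
        exact (hfadj _ (by omega)).symm
    · have hjm' : j = m := le_antisymm hj hjm
      subst hjm'
      rw [Nat.mod_self, hg2 _ him, hg1 _ (Nat.zero_le _)]
      have e : j + i + 1 - j = i + 1 := by omega
      rw [e]
      exact ha.symm
  have hginj : ∀ a ≤ m, ∀ b ≤ m, g a = g b → a = b := by
    intro a ha' b hb' hab
    rcases Nat.lt_or_ge i a with h | h <;> rcases Nat.lt_or_ge i b with h' | h'
    · rw [hg2 _ h, hg2 _ h'] at hab
      have := hfinj (x₁ := m + i + 1 - a) (x₂ := m + i + 1 - b) (by simp only [Set.mem_Iic]; omega)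
        (by simp only [Set.mem_Iic]; omega) hab
      omega
    · rw [hg2 _ h, hg1 _ h'] at hab
      have := hfinj (x₁ := m + i + 1 - a) (x₂ := b) (by simp only [Set.mem_Iic]; omega)
        (by simp only [Set.mem_Iic]; omega) hab
      omega
    · rw [hg1 _ h, hg2 _ h'] at hab
      have := hfinj (x₁ := a) (x₂ := m + i + 1 - b) (by simp only [Set.mem_Iic]; omega)
        (by simp only [Set.mem_Iic]; omega) hab
      omega
    · rw [hg1 _ h, hg1 _ h'] at hab
      exact hfinj (by simp only [Set.mem_Iic]; omega) (by simp only [Set.mem_Iic]; omega) hab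
  have hgS : ∀ j ≤ m, g j ∈ S := by
    intro j hj
    rcases Nat.lt_or_ge i j with h | h
    · rw [hg2 _ h]
      exact hfS _ (by omega)
    · rw [hg1 _ h]
      exact hfS _ (by omega)
  refine ⟨(range (m + 1)).image g, ?_, ?_, ?_, ?_⟩
  · intro x hx
    obtain ⟨j, hj, rfl⟩ := mem_image.1 hx
    rw [mem_range] at hj
    exact hgS j (by omega)
  · exact ⟨g 0, mem_image.2 ⟨0, by simp, rfl⟩⟩
  · exact card_image_le.trans (by rw [card_range]; exact hmk)
  · intro x hx y hy hadj
    by_contra hcon
    obtain ⟨p, hp, rfl⟩ := mem_image.1 hx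
    rw [mem_range] at hp
    have hyg : ∀ j ≤ m, g j ≠ y := fun j hj h => hcon (mem_image.2 ⟨j, by simp; omega, h⟩)
    have hmod : ∀ j, (p + j) % (m + 1) ≤ m := fun j =>
      Nat.lt_succ_iff.1 (Nat.mod_lt (p + j) (Nat.succ_pos m))
    have h1 : PathIn G S (m + 1) (fun j => if j = 0 then y else g ((p + (j - 1)) % (m + 1))) := by
      refine ⟨?_, ?_, ?_⟩
      · intro j hj
        by_cases h : j = 0
        · simp [h, hy]
        · simp only [h, if_false]
          exact hgS _ (hmod _)
      · intro j hj
        by_cases h : j = 0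
        · subst h
          simp only [if_true, zero_add, one_ne_zero, if_false, Nat.sub_self, add_zero]
          rw [Nat.mod_eq_of_lt hp]
          exact hadj.symm
        · simp only [h, if_false, Nat.add_eq_zero_iff, one_ne_zero, and_false]
          have := hgadj _ (hmod (j - 1))
          have e : ((p + (j - 1)) % (m + 1) + 1) % (m + 1) = (p + (j + 1 - 1)) % (m + 1) := by
            rw [Nat.mod_add_mod]
            congr 1
            omega
          rwa [e] at this
      · intro a ha' b hb' hab
        simp only [Set.mem_Iic] at ha' hb'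
        by_cases h : a = 0 <;> by_cases h' : b = 0 <;> simp only [h, h', if_true, if_false] at hab
        · omega
        · exact absurd hab.symm (hyg _ (hmod _))
        · exact absurd hab (hyg _ (hmod _))
        · have h2 := hginj _ (hmod _) _ (hmod _) hab
          have h3 : (p + (a - 1)) ≡ (p + (b - 1)) [MOD (m + 1)] := h2
          have h4 := Nat.ModEq.add_left_cancel' p h3
          have h5 : (a - 1) % (m + 1) = (b - 1) % (m + 1) := h4
          rw [Nat.mod_eq_of_lt (by omega), Nat.mod_eq_of_lt (by omega)] at h5
          omega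
    have := hmax _ _ h1
    omega

/-- If no path of `G` has more than `k` vertices, then twice the number of edges inside `S` is at most
`c |S|`, provided `2d ≤ c` whenever `2d < k`, and sets with at most `k` vertices satisfy the bound. -/
theorem E_le (k c : ℕ) (hk : 1 ≤ k) (hpar : ∀ d, 2 * d < k → 2 * d ≤ c)
    (hno : ∀ S m f, PathIn G S m f → m + 1 ≤ k)
    (hC : ∀ C : Finset V, C.card ≤ k → E G C ≤ c * C.card) :
    ∀ S : Finset V, E G S ≤ c * S.card := by
  intro S
  induction S using Finset.strongInduction with
  | H S ih =>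
    by_cases hS : S.Nonempty
    · by_cases hdeg : ∀ v ∈ S, k ≤ 2 * (nb G S v).card
      · obtain ⟨C, hCS, hCne, hCk, hcl⟩ := exists_closed G k S hS hdeg hk (hno S)
        rw [E_split G hCS hcl]
        have h1 := hC C hCk
        have h2 := ih (S \ C) (Finset.sdiff_ssubset hCS hCne)
        have h3 : S.card = C.card + (S \ C).card := by
          rw [card_sdiff_of_subset hCS]
          have := card_le_card hCS
          omega
        rw [h3, mul_add]
        omega
      · push Not at hdeg
        obtain ⟨v, hv, hd⟩ := hdeg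
        rw [E_mono_erase G hv]
        have h1 := ih (S.erase v) (erase_ssubset hv)
        have h2 := hpar _ hd
        have h3 : S.card = (S.erase v).card + 1 := (card_erase_add_one hv).symm
        rw [h3, mul_add, mul_one]
        omega
    · rw [not_nonempty_iff_eq_empty] at hS
      subst hS
      simp [E]

end Pool.Agent.R84.EG
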