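import Pool.Agent.R84.Inv

/-!
# Hub systems: almost all vertices of large degree can be attached to disjoint sets of `t` hubs
-/

set_option autoImplicit false

namespace Pool.Agent.R84.Hubs

open Finset SimpleGraph Pool.Agent.R84.Inv

variable {V : Type} [DecidableEq V] (G : SimpleGraph V) [DecidableRel G.Adj]

/-- A system of pairwise disjoint hub sets with `t` vertices: each vertex `v` of `A` is joined to all
vertices of its hub set `hub v`. -/
structure HubSys (t : ℕ) (X used : Finset V) (s : ℕ) where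
  /-- the attached vertices -/
  A : Finset V
  /-- the hub set -/
  hub : V → Finset V
  sub : A ⊆ X
  card : ∀ v ∈ A, (hub v).card = t
  adj : ∀ v ∈ A, ∀ h ∈ hub v, G.Adj v h
  disj_used : ∀ v ∈ A, Disjoint (hub v) used
  same : ∀ v ∈ A, ∀ w ∈ A, hub v = hub w ∨ Disjoint (hub v) (hub w)
  nohub : ∀ v ∈ A, ∀ w ∈ A, w ∉ hub v
  total : (A.biUnion hub).card ≤ s * t

theorem exists_hub (q : ℝ) (hq0 : 0 ≤ q) (S₀ : Finset V) : ∀ (t : ℕ) (X used : Finset V),
    X.Nonempty → (∀ v ∈ X, q * S₀.card + t ≤ (((S₀ \ used).filter (G.Adj v)).card : ℝ)) →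
    ∃ H ⊆ S₀ \ used, H.card = t ∧
      q ^ t * X.card ≤ ((X.filter fun v => ∀ h ∈ H, G.Adj v h).card : ℝ) := by
  intro t
  induction t with
  | zero =>
    intro X used _ _
    exact ⟨∅, empty_subset _, rfl, by simp⟩
  | succ t ih =>
    intro X used hX hdeg
    obtain ⟨v₀, hv₀⟩ := hX
    have hpos : ∀ v ∈ X, 0 < ((S₀ \ used).filter (G.Adj v)).card := by
      intro v hv
      have h1 := hdeg v hv
      have h2 : (0 : ℝ) < (((S₀ \ used).filter (G.Adj v)).card : ℝ) := by
        push_cast at h1
        have : 0 ≤ q * (S₀.card : ℝ) := by positivity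
        have h3 : (0 : ℝ) ≤ t := Nat.cast_nonneg t
        linarith
      exact_mod_cast h2
    have hne : (S₀ \ used).Nonempty := by
      obtain ⟨y, hy⟩ := card_pos.1 (hpos v₀ hv₀)
      exact ⟨y, (mem_filter.1 hy).1⟩
    obtain ⟨h, hh, hmax⟩ := exists_max_image (S₀ \ used)
      (fun h => (X.filter fun v => G.Adj v h).card) hne
    -- double counting
    have hdc : ∑ v ∈ X, ((S₀ \ used).filter (G.Adj v)).card =
        ∑ h ∈ S₀ \ used, (X.filter fun v => G.Adj v h).card := by
      simp_rw [card_filter]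
      exact sum_comm
    have hle : ∑ h' ∈ S₀ \ used, (X.filter fun v => G.Adj v h').card ≤
        (S₀ \ used).card * (X.filter fun v => G.Adj v h).card := by
      rw [← smul_eq_mul]
      exact sum_le_card_nsmul _ _ _ hmax
    have hlow : (X.card : ℝ) * (q * S₀.card) ≤
        ∑ v ∈ X, (((S₀ \ used).filter (G.Adj v)).card : ℝ) := by
      rw [← nsmul_eq_mul]
      refine card_nsmul_le_sum _ _ _ fun v hv => ?_
      have := hdeg v hv
      push_cast at this
      have h3 : (0 : ℝ) ≤ t := Nat.cast_nonneg t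
      linarith
    have hS₀ : 0 < S₀.card := card_pos.2 (hne.mono sdiff_subset)
    have hbig : q * X.card ≤ ((X.filter fun v => G.Adj v h).card : ℝ) := by
      have h1 : (X.card : ℝ) * (q * S₀.card) ≤
          S₀.card * ((X.filter fun v => G.Adj v h).card : ℝ) := by
        refine hlow.trans ?_
        have h2 : ∑ v ∈ X, (((S₀ \ used).filter (G.Adj v)).card : ℝ) ≤
            ((S₀ \ used).card : ℝ) * ((X.filter fun v => G.Adj v h).card : ℝ) := by
          have := hdc.le.trans hle
          exact_mod_cast this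
        refine h2.trans ?_
        apply mul_le_mul_of_nonneg_right _ (by positivity)
        exact_mod_cast card_le_card (sdiff_subset : S₀ \ used ⊆ S₀)
      have h4 : (0 : ℝ) < S₀.card := by exact_mod_cast hS₀
      refine le_of_mul_le_mul_left ?_ h4
      linarith
    have hX' : (X.filter fun v => G.Adj v h).Nonempty := by
      obtain ⟨y, hy⟩ := card_pos.1 (hpos v₀ hv₀)
      have h1 : 0 < (X.filter fun v => G.Adj v y).card :=
        card_pos.2 ⟨v₀, mem_filter.2 ⟨hv₀, (mem_filter.1 hy).2⟩⟩
      exact card_pos.1 (h1.trans_le (hmax y (mem_filter.1 hy).1))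
    obtain ⟨H, hHsub, hHcard, hH⟩ := ih (X.filter fun v => G.Adj v h) (insert h used) hX' (by
      intro v hv
      have h1 := hdeg v (mem_filter.1 hv).1
      have h2 : (S₀ \ used).filter (G.Adj v) ⊆
          insert h ((S₀ \ insert h used).filter (G.Adj v)) := by
        intro y hy
        simp only [mem_filter, mem_sdiff, mem_insert] at hy ⊢
        by_cases hyh : y = h
        · exact Or.inl hyh
        · refine Or.inr ⟨⟨hy.1.1, ?_⟩, hy.2⟩
          rintro (h3 | h3)
          · exact hyh h3
          · exact hy.1.2 h3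
      have h3 := (card_le_card h2).trans (card_insert_le _ _)
      have h4 : (((S₀ \ used).filter (G.Adj v)).card : ℝ) ≤
          ((S₀ \ insert h used).filter (G.Adj v)).card + 1 := by exact_mod_cast h3
      push_cast at h1
      linarith)
    have hhH : h ∉ H := fun h1 => (mem_sdiff.1 (hHsub h1)).2 (mem_insert_self _ _)
    refine ⟨insert h H, ?_, ?_, ?_⟩
    · intro y hy
      rcases mem_insert.1 hy with rfl | hy
      · exact hh
      · have := mem_sdiff.1 (hHsub hy)
        exact mem_sdiff.2 ⟨this.1, fun h1 => this.2 (mem_insert_of_mem h1)⟩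
    · rw [card_insert_of_notMem hhH, hHcard]
    · have h1 : (X.filter fun v => ∀ h' ∈ insert h H, G.Adj v h') =
          ((X.filter fun v => G.Adj v h).filter fun v => ∀ h' ∈ H, G.Adj v h') := by
        ext v
        simp only [mem_filter, mem_insert, forall_eq_or_imp]
        tauto
      rw [h1]
      calc q ^ (t + 1) * (X.card : ℝ) = q ^ t * (q * X.card) := by ring
        _ ≤ q ^ t * ((X.filter fun v => G.Adj v h).card : ℝ) :=
            mul_le_mul_of_nonneg_left hbig (by positivity)
        _ ≤ _ := hH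

theorem exists_sys (q : ℝ) (hq0 : 0 ≤ q) (hq1 : q ≤ 1) (S₀ : Finset V) (t : ℕ) :
    ∀ (s : ℕ) (X used : Finset V),
    (∀ v ∈ X, q * S₀.card + s * t ≤ (((S₀ \ used).filter (G.Adj v)).card : ℝ)) →
    ∃ hs : HubSys G t X used s,
      (1 - (1 - q ^ t) ^ s) * X.card - t * (s * (s + 1)) ≤ (hs.A.card : ℝ) := by
  intro s
  induction s with
  | zero =>
    intro X used _
    refine ⟨⟨∅, fun _ => ∅, empty_subset _, by simp, by simp, by simp, by simp, by simp,
      by simp⟩, by simp⟩
  | succ s ih =>
    intro X used hdeg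
    have hp0 : 0 ≤ q ^ t := pow_nonneg hq0 t
    have hp1 : q ^ t ≤ 1 := pow_le_one₀ hq0 hq1
    rcases X.eq_empty_or_nonempty with rfl | hX
    · refine ⟨⟨∅, fun _ => ∅, empty_subset _, by simp, by simp, by simp, by simp, by simp,
        by simp⟩, ?_⟩
      simp only [card_empty, Nat.cast_zero, mul_zero, zero_sub]
      have : (0 : ℝ) ≤ (t : ℝ) * (((s + 1 : ℕ) : ℝ) * (((s + 1 : ℕ) : ℝ) + 1)) := by positivity
      linarith
    · obtain ⟨H, hHsub, hHcard, hH⟩ := exists_hub G q hq0 S₀ t X used hX (by
        intro v hv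
        have h1 := hdeg v hv
        push_cast at h1
        have h2 : (0 : ℝ) ≤ (s : ℝ) * t := by positivity
        linarith)
      obtain ⟨XH, hXH⟩ : ∃ XH, XH = X.filter fun v => ∀ h ∈ H, G.Adj v h := ⟨_, rfl⟩
      rw [← hXH] at hH
      have hXHmem : ∀ v, v ∈ XH ↔ v ∈ X ∧ ∀ h ∈ H, G.Adj v h := by
        intro v
        rw [hXH, mem_filter]
      obtain ⟨hs, hcount⟩ := ih (X \ (XH ∪ H)) (used ∪ H) (by
        intro v hv
        have h1 := hdeg v (mem_sdiff.1 hv).1
        have h2 : (S₀ \ used).filter (G.Adj v) ⊆ H ∪ ((S₀ \ (used ∪ H)).filter (G.Adj v)) := by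
          intro y hy
          simp only [mem_filter, mem_sdiff, mem_union] at hy ⊢
          by_cases hyh : y ∈ H
          · exact Or.inl hyh
          · refine Or.inr ⟨⟨hy.1.1, ?_⟩, hy.2⟩
            rintro (h3 | h3)
            · exact hy.1.2 h3
            · exact hyh h3
        have h3 := (card_le_card h2).trans (card_union_le _ _)
        rw [hHcard] at h3
        have h4 : (((S₀ \ used).filter (G.Adj v)).card : ℝ) ≤
            t + ((S₀ \ (used ∪ H)).filter (G.Adj v)).card := by exact_mod_cast h3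
        push_cast at h1
        linarith)
      have hsubX : ∀ v ∈ hs.A, v ∈ X ∧ v ∉ XH ∧ v ∉ H := by
        intro v hv
        have := mem_sdiff.1 (hs.sub hv)
        refine ⟨this.1, fun h => this.2 (mem_union_left _ h), fun h => this.2 (mem_union_right _ h)⟩
      have hXHH : ∀ v ∈ XH, v ∉ H := by
        intro v hv hvH
        exact G.loopless.irrefl v (((hXHmem v).1 hv).2 v hvH)
      -- the new system
      obtain ⟨B, hB⟩ : ∃ B, B = XH \ hs.A.biUnion hs.hub := ⟨_, rfl⟩
      have hBmem : ∀ v, v ∈ B ↔ v ∈ XH ∧ ∀ w ∈ hs.A, v ∉ hs.hub w := by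
        intro v
        rw [hB, mem_sdiff, mem_biUnion]
        push Not
        rfl
      have hdisj : Disjoint hs.A B := by
        rw [Finset.disjoint_left]
        intro v hv hv'
        exact (hsubX v hv).2.1 ((hBmem v).1 hv').1
      refine ⟨⟨hs.A ∪ B, fun v => if v ∈ hs.A then hs.hub v else H, ?_, ?_, ?_, ?_, ?_, ?_, ?_⟩, ?_⟩
      · intro v hv
        rcases mem_union.1 hv with h | h
        · exact (hsubX v h).1
        · exact ((hXHmem v).1 ((hBmem v).1 h).1).1
      · intro v hv
        by_cases h : v ∈ hs.A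
        · rw [if_pos h]
          exact hs.card v h
        · rw [if_neg h]
          exact hHcard
      · intro v hv y hy
        by_cases h : v ∈ hs.A
        · rw [if_pos h] at hy
          exact hs.adj v h y hy
        · rw [if_neg h] at hy
          have h1 := (mem_union.1 hv).resolve_left h
          exact ((hXHmem v).1 ((hBmem v).1 h1).1).2 y hy
      · intro v hv
        by_cases h : v ∈ hs.A
        · rw [if_pos h]
          exact (hs.disj_used v h).mono_right subset_union_left
        · rw [if_neg h, Finset.disjoint_left]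
          intro y hy hy'
          exact (mem_sdiff.1 (hHsub hy)).2 hy'
      · intro v hv w hw
        by_cases h : v ∈ hs.A <;> by_cases h' : w ∈ hs.A
        · rw [if_pos h, if_pos h']
          exact hs.same v h w h'
        · rw [if_pos h, if_neg h']
          exact Or.inr ((hs.disj_used v h).mono_right subset_union_right)
        · rw [if_neg h, if_pos h']
          exact Or.inr ((hs.disj_used w h').mono_right subset_union_right).symm
        · rw [if_neg h, if_neg h']
          exact Or.inl rfl
      · intro v hv w hw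
        by_cases h : v ∈ hs.A
        · rw [if_pos h]
          rcases mem_union.1 hw with h' | h'
          · exact hs.nohub v h w h'
          · exact ((hBmem w).1 h').2 v h
        · rw [if_neg h]
          rcases mem_union.1 hw with h' | h'
          · exact (hsubX w h').2.2
          · exact hXHH w ((hBmem w).1 h').1
      · have h1 : ((hs.A ∪ B).biUnion fun v => if v ∈ hs.A then hs.hub v else H) ⊆
            hs.A.biUnion hs.hub ∪ H := by
          intro y hy
          obtain ⟨v, hv, hy⟩ := mem_biUnion.1 hy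
          by_cases h : v ∈ hs.A
          · rw [if_pos h] at hy
            exact mem_union_left _ (mem_biUnion.2 ⟨v, h, hy⟩)
          · rw [if_neg h] at hy
            exact mem_union_right _ hy
        refine (card_le_card h1).trans ((card_union_le _ _).trans ?_)
        rw [hHcard, add_mul, one_mul]
        exact Nat.add_le_add_right hs.total _
      · show _ ≤ ((hs.A ∪ B).card : ℝ)
        rw [card_union_of_disjoint hdisj]
        have h1 : XH.card ≤ B.card + s * t := by
          have : XH.card ≤ B.card + (hs.A.biUnion hs.hub).card := by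
            rw [hB]
            exact card_le_card_sdiff_add_card
          exact this.trans (Nat.add_le_add_left hs.total _)
        have h2 : X.card ≤ (X \ (XH ∪ H)).card + (XH.card + t) := by
          have h3 : X.card ≤ (X \ (XH ∪ H)).card + (XH ∪ H).card := card_le_card_sdiff_add_card
          have h4 := card_union_le XH H
          rw [hHcard] at h4
          omega
        have h1' : (XH.card : ℝ) ≤ B.card + s * t := by exact_mod_cast h1
        have h2' : (X.card : ℝ) ≤ (X \ (XH ∪ H)).card + (XH.card + t) := by exact_mod_cast h2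
        obtain ⟨r, hr⟩ : ∃ r, r = (1 - q ^ t) ^ s := ⟨_, rfl⟩
        have hr0 : 0 ≤ r := by rw [hr]; exact pow_nonneg (by linarith) _
        have hr1 : r ≤ 1 := by rw [hr]; exact pow_le_one₀ (by linarith) (by linarith)
        rw [← hr] at hcount
        rw [pow_succ, ← hr]
        push_cast
        have ht0 : (0 : ℝ) ≤ t := Nat.cast_nonneg t
        have hs0 : (0 : ℝ) ≤ s := Nat.cast_nonneg s
        have h5 : (1 - r) * ((X.card : ℝ) - XH.card - t) ≤ (1 - r) * (X \ (XH ∪ H)).card :=
          mul_le_mul_of_nonneg_left (by linarith) (by linarith)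
        have h6 : r * (q ^ t * X.card) ≤ r * XH.card := mul_le_mul_of_nonneg_left hH hr0
        have h7 : (1 - r) * (t : ℝ) ≤ t := by nlinarith
        have h8 : (0 : ℝ) ≤ t * (s + 1) := by positivity
        nlinarith

section graph

variable {G}
variable {t : ℕ} {X used : Finset V} {s : ℕ} (hs : HubSys G t X used s)

/-- The graph of a hub system. -/
def HubSys.graph : SimpleGraph V where
  Adj x y := (x ∈ hs.A ∧ y ∈ hs.hub x) ∨ (y ∈ hs.A ∧ x ∈ hs.hub y)
  symm := ⟨fun _ _ h => h.symm⟩
  loopless := ⟨fun x h => by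
    rcases h with h | h <;> exact hs.nohub x h.1 x h.1 h.2⟩

theorem HubSys.graph_le : hs.graph ≤ G := by
  intro x y h
  rcases h with h | h
  · exact hs.adj x h.1 y h.2
  · exact (hs.adj y h.1 x h.2).symm

theorem HubSys.graph_free (l : ℕ) (hl : 2 * t + 2 ≤ l) : (pathGraph l).Free hs.graph := by
  rintro ⟨φ⟩
  have hadj : ∀ i j : Fin l, (i : ℕ) + 1 = j → hs.graph.Adj (φ i) (φ j) := fun i j hij =>
    φ.toHom.map_adj (pathGraph_adj.2 (Or.inl hij))
  -- the common hub set
  obtain ⟨w, hw, hH0⟩ : ∃ w ∈ hs.A, ∀ (h : 0 < l),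
      (φ ⟨0, h⟩ ∈ hs.A → hs.hub (φ ⟨0, h⟩) = hs.hub w) ∧
      (φ ⟨0, h⟩ ∉ hs.A → φ ⟨0, h⟩ ∈ hs.hub w) := by
    rcases hadj ⟨0, by omega⟩ ⟨1, by omega⟩ rfl with h | h
    · exact ⟨_, h.1, fun _ => ⟨fun _ => rfl, fun h' => absurd h.1 h'⟩⟩
    · refine ⟨_, h.1, fun _ => ⟨fun h' => absurd h.2 (hs.nohub _ h.1 _ h'), fun _ => h.2⟩⟩
  have key : ∀ (i : ℕ) (hi : i < l), (φ ⟨i, hi⟩ ∈ hs.A → hs.hub (φ ⟨i, hi⟩) = hs.hub w) ∧
      (φ ⟨i, hi⟩ ∉ hs.A → φ ⟨i, hi⟩ ∈ hs.hub w) := by
    intro i
    induction i with
    | zero => exact hH0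
    | succ i ih =>
      intro hi
      obtain ⟨h1, h2⟩ := ih (by omega)
      rcases hadj ⟨i, by omega⟩ ⟨i + 1, hi⟩ rfl with h | h
      · refine ⟨fun h' => absurd h.2 (hs.nohub _ h.1 _ h'), fun _ => ?_⟩
        rw [← h1 h.1]
        exact h.2
      · refine ⟨fun _ => ?_, fun h' => absurd h.1 h'⟩
        have h3 : φ ⟨i, by omega⟩ ∉ hs.A := fun h' => hs.nohub _ h.1 _ h' h.2
        rcases hs.same _ h.1 w hw with h4 | h4
        · exact h4
        · exact absurd (h2 h3) (Finset.disjoint_left.1 h4 h.2)
  -- one hub in each of `t + 1` pairs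
  have pick : ∀ j : Fin (t + 1), ∃ i : Fin l, ((i : ℕ) = 2 * j ∨ (i : ℕ) = 2 * j + 1) ∧
      φ i ∈ hs.hub w := by
    intro j
    have hj := j.2
    by_cases h : φ ⟨2 * j, by omega⟩ ∈ hs.A
    · have h1 : φ ⟨2 * j + 1, by omega⟩ ∉ hs.A := by
        intro h'
        rcases hadj ⟨2 * j, by omega⟩ ⟨2 * j + 1, by omega⟩ rfl with h2 | h2
        · exact hs.nohub _ h _ h' h2.2
        · exact hs.nohub _ h' _ h h2.2
      exact ⟨⟨2 * j + 1, by omega⟩, Or.inr rfl, (key _ _).2 h1⟩
    · exact ⟨⟨2 * j, by omega⟩, Or.inl rfl, (key _ _).2 h⟩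
  choose g hg1 hg2 using pick
  have hinj : Function.Injective fun j => φ (g j) := by
    intro j j' h
    have h1 := φ.injective h
    have h2 := hg1 j
    have h3 := hg1 j'
    rw [h1] at h2
    exact Fin.ext (by omega)
  have h1 : (univ.image fun j => φ (g j)) ⊆ hs.hub w := by
    intro y hy
    obtain ⟨j, _, rfl⟩ := mem_image.1 hy
    exact hg2 j
  have h2 := card_le_card h1
  rw [card_image_of_injective _ hinj, card_univ, Fintype.card_fin, hs.card w hw] at h2
  omega

theorem HubSys.edges [Finite V] : t * hs.A.card ≤ hs.graph.edgeSet.ncard := by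
  classical
  have h1 : (hs.A.sigma fun v => hs.hub v).card = t * hs.A.card := by
    rw [card_sigma, Finset.sum_congr rfl fun v hv => hs.card v hv, sum_const, smul_eq_mul, mul_comm]
  rw [← h1, ← Set.ncard_coe_finset]
  refine Set.ncard_le_ncard_of_injOn (fun p => s(p.1, p.2)) ?_ ?_ (Set.toFinite _)
  · rintro ⟨v, h⟩ hp
    rw [Finset.mem_coe, mem_sigma] at hp
    exact (mem_edgeSet _).2 (Or.inl hp)
  · rintro ⟨v, h⟩ hp ⟨v', h'⟩ hp' heq
    rw [Finset.mem_coe, mem_sigma] at hp hp'
    rcases Sym2.eq_iff.1 heq with ⟨h1, h2⟩ | ⟨h1, h2⟩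
    · simp only at h1 h2
      subst h1
      subst h2
      rfl
    · exfalso
      simp only at h1 h2
      exact hs.nohub v' hp'.1 v hp.1 (h1 ▸ hp'.2)

end graph

end Pool.Agent.R84.Hubs
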