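import Pool.Agent.R84.EG

/-!
# Inverse Turan numbers: definitions and basic facts
-/

set_option autoImplicit false

namespace Pool.Agent.R84.Inv

open Finset SimpleGraph Pool.Agent.R84.EG

/-- `ex(G,F)`: the largest number of edges of a subgraph of `G` which contains no copy of `F`. -/
noncomputable def exIn {V W : Type} (G : SimpleGraph V) (F : SimpleGraph W) : ℕ :=
  sSup {m : ℕ | ∃ H : SimpleGraph V, H ≤ G ∧ F.Free H ∧ H.edgeSet.ncard = m}

/-- The numbers of edges of the finite graphs `G` with `ex(G,F) < k`. -/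
def sizes {W : Type} (k : ℕ) (F : SimpleGraph W) : Set ℕ :=
  {m : ℕ | ∃ (n : ℕ) (G : SimpleGraph (Fin n)), exIn G F < k ∧ G.edgeSet.ncard = m}

/-- The inverse Turan number `ex⁻¹(k,F) = sup {e(G) : ex(G,F) < k}`. -/
noncomputable def invEx {W : Type} (k : ℕ) (F : SimpleGraph W) : ℕ := sSup (sizes k F)

section

variable {V W : Type} [Finite V] {G : SimpleGraph V} {F : SimpleGraph W}

theorem exIn_bdd : BddAbove {m : ℕ | ∃ H : SimpleGraph V, H ≤ G ∧ F.Free H ∧
    H.edgeSet.ncard = m} := by
  refine ⟨G.edgeSet.ncard, ?_⟩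
  rintro m ⟨H, hHG, _, rfl⟩
  exact Set.ncard_le_ncard (edgeSet_mono hHG) (Set.toFinite _)

theorem le_exIn {H : SimpleGraph V} (hHG : H ≤ G) (hF : F.Free H) :
    H.edgeSet.ncard ≤ exIn G F := le_csSup exIn_bdd ⟨H, hHG, hF, rfl⟩

theorem exIn_le {b : ℕ} (h : ∀ H : SimpleGraph V, H ≤ G → F.Free H → H.edgeSet.ncard ≤ b) :
    exIn G F ≤ b := by
  unfold exIn
  by_cases hne : {m : ℕ | ∃ H : SimpleGraph V, H ≤ G ∧ F.Free H ∧ H.edgeSet.ncard = m}.Nonempty
  · refine csSup_le hne ?_
    rintro m ⟨H, h1, h2, rfl⟩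
    exact h H h1 h2
  · rw [Set.not_nonempty_iff_eq_empty] at hne
    rw [hne]
    simp

end

theorem path_bound {V : Type*} [DecidableEq V] {H : SimpleGraph V} [DecidableRel H.Adj] {k : ℕ}
    (hF : (pathGraph (k + 1)).Free H) (S : Finset V) (m : ℕ) (f : ℕ → V) (hf : PathIn H S m f) :
    m + 1 ≤ k := by
  by_contra hcon
  apply hF
  refine ⟨⟨⟨fun i => f i, ?_⟩, ?_⟩⟩
  · intro a b hab
    rw [pathGraph_adj] at hab
    have ha := a.2
    have hb := b.2
    rcases hab with h | h
    · have := hf.2.1 a (by omega)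
      rwa [h] at this
    · have := hf.2.1 b (by omega)
      rw [h] at this
      exact this.symm
  · intro a b hab
    have ha := a.2
    have hb := b.2
    exact Fin.ext (hf.2.2 (by simp only [Set.mem_Iic]; omega) (by simp only [Set.mem_Iic]; omega)
      hab)

theorem E_univ {V : Type*} [Fintype V] [DecidableEq V] (H : SimpleGraph V) [DecidableRel H.Adj] :
    E H univ = 2 * H.edgeSet.ncard := by
  have h1 := H.sum_degrees_eq_twice_card_edges
  unfold E nb
  have h2 : H.edgeSet.ncard = #H.edgeFinset := by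
    rw [← coe_edgeFinset, Set.ncard_coe_finset]
  rw [h2, ← h1]
  refine Finset.sum_congr rfl fun v _ => ?_
  rw [← card_neighborFinset_eq_degree, neighborFinset_eq_filter]

open Classical in
/-- vertices with a neighbour -/
noncomputable def supp {V : Type} [Fintype V] (G : SimpleGraph V) : Finset V :=
  univ.filter fun v => ∃ w, G.Adj v w

theorem mem_supp {V : Type} [Fintype V] {G : SimpleGraph V} {v : V} :
    v ∈ supp G ↔ ∃ w, G.Adj v w := by
  simp [supp]

theorem ncard_edge_le {V : Type} [Fintype V] (G : SimpleGraph V) :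
    (supp G).card ≤ 2 * G.edgeSet.ncard := by
  classical
  have h2 : G.edgeSet.ncard = #G.edgeFinset := by
    rw [← coe_edgeFinset, Set.ncard_coe_finset]
  rw [h2, ← G.sum_degrees_eq_twice_card_edges, card_eq_sum_ones,
    ← Finset.sum_subset (subset_univ (supp G))]
  · refine Finset.sum_le_sum fun v hv => ?_
    obtain ⟨w, hw⟩ := mem_supp.1 hv
    exact (G.degree_pos_iff_exists_adj v).2 ⟨w, hw⟩
  · intro v _ hv
    rw [mem_supp] at hv
    by_contra h
    exact hv ((G.degree_pos_iff_exists_adj v).1 (Nat.pos_of_ne_zero h))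

/-- Every graph has a subgraph with the same non-isolated vertices in which each edge has an end of
degree one. -/
theorem exists_star_forest {V : Type} [Fintype V] (G : SimpleGraph V) :
    ∃ H ≤ G, supp H = supp G ∧ ∀ x y, H.Adj x y → (∀ z, H.Adj x z → z = y) ∨
      ∀ z, H.Adj y z → z = x := by
  classical
  obtain ⟨H, hH⟩ := (Set.toFinite {H : SimpleGraph V | H ≤ G ∧ supp H = supp G}).exists_minimal
    ⟨G, le_rfl, rfl⟩
  obtain ⟨⟨hHG, hs⟩, hmin⟩ := hH
  refine ⟨H, hHG, hs, fun x y hxy => ?_⟩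
  by_contra hcon
  push Not at hcon
  obtain ⟨⟨z, hz, hzy⟩, ⟨w, hw, hwx⟩⟩ := hcon
  let H' := H.deleteEdges {s(x, y)}
  have hlt : H' < H := by
    refine lt_of_le_of_ne (deleteEdges_le _) fun h => ?_
    have : H'.Adj x y := by rw [h]; exact hxy
    simp [H', deleteEdges_adj] at this
  have hs' : supp H' = supp G := by
    rw [← hs]
    ext v
    rw [mem_supp, mem_supp]
    constructor
    · rintro ⟨u, hu⟩
      exact ⟨u, hlt.le hu⟩
    · rintro ⟨u, hu⟩
      by_cases hvx : v = x
      · subst hvx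
        refine ⟨z, ?_⟩
        simp only [H', deleteEdges_adj, Set.mem_singleton_iff, Sym2.eq_iff]
        refine ⟨hz, ?_⟩
        rintro (⟨_, h⟩ | ⟨h, h'⟩)
        · exact hzy h
        · exact hxy.ne h
      · by_cases hvy : v = y
        · subst hvy
          refine ⟨w, ?_⟩
          simp only [H', deleteEdges_adj, Set.mem_singleton_iff, Sym2.eq_iff]
          refine ⟨hw, ?_⟩
          rintro (⟨h, _⟩ | ⟨_, h'⟩)
          · exact hvx h
          · exact hwx h'
        · refine ⟨u, ?_⟩
          simp only [H', deleteEdges_adj, Set.mem_singleton_iff, Sym2.eq_iff]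
          refine ⟨hu, ?_⟩
          rintro (⟨h, _⟩ | ⟨h, _⟩)
          · exact hvx h
          · exact hvy h
  exact hlt.not_ge (hmin ⟨hlt.le.trans hHG, hs'⟩ hlt.le)

/-- The number of non-isolated vertices is at most `2 ex(G, P)` for a path `P` with at least three
edges. -/
theorem supp_le {V : Type} [Fintype V] (G : SimpleGraph V) (l : ℕ) (hl : 4 ≤ l) :
    (supp G).card ≤ 2 * exIn G (pathGraph l) := by
  classical
  obtain ⟨H, hHG, hs, hstar⟩ := exists_star_forest G
  have hfree : (pathGraph l).Free H := by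
    rintro ⟨φ⟩
    have hadj : ∀ i j : Fin l, (i : ℕ) + 1 = j → H.Adj (φ i) (φ j) := fun i j hij =>
      φ.toHom.map_adj (pathGraph_adj.2 (Or.inl hij))
    let a : Fin l := ⟨0, by omega⟩
    let b : Fin l := ⟨1, by omega⟩
    let c : Fin l := ⟨2, by omega⟩
    let d : Fin l := ⟨3, by omega⟩
    have hab := hadj a b rfl
    have hbc := hadj b c rfl
    have hcd := hadj c d rfl
    rcases hstar _ _ hbc with h | h
    · have := φ.injective (h _ hab.symm)
      simp [a, c] at this
    · have := φ.injective (h _ hcd)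
      simp [b, d] at this
  rw [← hs]
  exact (ncard_edge_le H).trans (Nat.mul_le_mul_left 2 (le_exIn hHG hfree))

end Pool.Agent.R84.Inv
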