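import Pool.Agent.R84.Hubs

/-!
# Inverse Turan numbers of paths: common estimates
-/

set_option autoImplicit false

namespace Pool.Agent.R84.InvCommon

open Finset SimpleGraph Pool.Agent.R84.EG Pool.Agent.R84.Inv Pool.Agent.R84.Hubs

section

variable {V : Type} [Fintype V] [DecidableEq V] (G : SimpleGraph V) [DecidableRel G.Adj]

/-- the vertices of degree at least `d` -/
noncomputable def big (d : ℝ) : Finset V := (supp G).filter fun v => d ≤ (G.degree v : ℝ)

/-- Splitting the edges by the degrees. -/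
theorem edges_le (d : ℝ) (hd : 0 ≤ d) :
    2 * (G.edgeSet.ncard : ℝ) ≤ ((big G d).card : ℝ) ^ 2 + 2 * ((supp G).card * d) := by
  classical
  have h2 : G.edgeSet.ncard = #G.edgeFinset := by
    rw [← coe_edgeFinset, Set.ncard_coe_finset]
  have h3 : 2 * (G.edgeSet.ncard : ℝ) = ∑ v, (G.degree v : ℝ) := by
    rw [h2]
    exact_mod_cast G.sum_degrees_eq_twice_card_edges.symm
  rw [h3]
  obtain ⟨W, hW⟩ : ∃ W, W = big G d := ⟨_, rfl⟩
  rw [← hW]
  have hWmem : ∀ v, v ∈ W ↔ v ∈ supp G ∧ d ≤ (G.degree v : ℝ) := by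
    intro v
    rw [hW, big, mem_filter]
  have h4 : ∑ v, (G.degree v : ℝ) = ∑ v ∈ supp G, (G.degree v : ℝ) := by
    rw [← Finset.sum_subset (subset_univ (supp G))]
    intro v _ hv
    rw [mem_supp] at hv
    have : G.degree v = 0 := by
      by_contra h
      exact hv ((G.degree_pos_iff_exists_adj v).1 (Nat.pos_of_ne_zero h))
    simp [this]
  have hWsub : W ⊆ supp G := fun v hv => ((hWmem v).1 hv).1
  rw [h4, ← Finset.sum_sdiff hWsub]
  -- low part
  have h5 : ∑ v ∈ supp G \ W, (G.degree v : ℝ) ≤ (supp G).card * d := by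
    calc ∑ v ∈ supp G \ W, (G.degree v : ℝ) ≤ ∑ v ∈ supp G \ W, d := by
          refine Finset.sum_le_sum fun v hv => ?_
          rw [mem_sdiff, hWmem] at hv
          by_contra h
          exact hv.2 ⟨hv.1, (not_le.1 h).le⟩
      _ = ((supp G \ W).card : ℝ) * d := by rw [sum_const, nsmul_eq_mul]
      _ ≤ (supp G).card * d := by
          apply mul_le_mul_of_nonneg_right _ hd
          exact_mod_cast card_le_card sdiff_subset
  -- high part
  have h6 : ∀ v ∈ W, (G.degree v : ℝ) ≤ W.card + ((supp G \ W).filter (G.Adj v)).card := by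
    intro v _
    rw [← card_neighborFinset_eq_degree]
    have : G.neighborFinset v ⊆ W ∪ (supp G \ W).filter (G.Adj v) := by
      intro y hy
      rw [mem_neighborFinset] at hy
      by_cases h : y ∈ W
      · exact mem_union_left _ h
      · exact mem_union_right _ (mem_filter.2 ⟨mem_sdiff.2 ⟨mem_supp.2 ⟨v, hy.symm⟩, h⟩, hy⟩)
    exact_mod_cast (card_le_card this).trans (card_union_le _ _)
  have h7 : ∑ v ∈ W, (((supp G \ W).filter (G.Adj v)).card : ℝ) ≤
      ∑ v ∈ supp G \ W, (G.degree v : ℝ) := by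
    have h8 : ∑ v ∈ W, ((supp G \ W).filter (G.Adj v)).card =
        ∑ y ∈ supp G \ W, (W.filter fun v => G.Adj v y).card := by
      simp_rw [card_filter]
      exact sum_comm
    have h9 : ∑ y ∈ supp G \ W, (W.filter fun v => G.Adj v y).card ≤
        ∑ y ∈ supp G \ W, G.degree y := by
      refine Finset.sum_le_sum fun y _ => ?_
      rw [← card_neighborFinset_eq_degree]
      apply card_le_card
      intro v hv
      rw [mem_neighborFinset]
      exact (mem_filter.1 hv).2.symm
    exact_mod_cast h8.le.trans h9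
  have h10 : ∑ v ∈ W, (G.degree v : ℝ) ≤ (W.card : ℝ) ^ 2 + (supp G).card * d := by
    calc ∑ v ∈ W, (G.degree v : ℝ)
        ≤ ∑ v ∈ W, ((W.card : ℝ) + ((supp G \ W).filter (G.Adj v)).card) := Finset.sum_le_sum h6
      _ = (W.card : ℝ) ^ 2 + ∑ v ∈ W, (((supp G \ W).filter (G.Adj v)).card : ℝ) := by
          rw [sum_add_distrib, sum_const, nsmul_eq_mul, sq]
      _ ≤ _ := by linarith
  linarith

/-- the neighbours in the support -/
theorem filter_supp (v : V) : ((supp G \ ∅).filter (G.Adj v)).card = G.degree v := by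
  classical
  rw [← card_neighborFinset_eq_degree]
  congr 1
  ext y
  simp only [sdiff_empty, mem_filter, mem_neighborFinset]
  exact ⟨fun h => h.2, fun h => ⟨mem_supp.2 ⟨v, h.symm⟩, h⟩⟩

end

/-- The inverse Turan sets are bounded. -/
theorem sizes_bdd (k l : ℕ) (hl : 4 ≤ l) : BddAbove (sizes k (pathGraph l)) := by
  classical
  refine ⟨(2 * k) ^ 2, ?_⟩
  rintro m ⟨n, G, hG, rfl⟩
  have h1 := supp_le G l hl
  have h2 := edges_le G 0 le_rfl
  have h3 : ((big G 0).card : ℝ) ≤ 2 * k := by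
    have h4 : (big G 0).card ≤ (supp G).card := card_le_card (filter_subset _ _)
    have h5 : (big G 0).card ≤ 2 * k := by omega
    exact_mod_cast h5
  have h6 : ((big G 0).card : ℝ) ^ 2 ≤ (2 * k) ^ 2 := by
    apply pow_le_pow_left₀ (by positivity) h3
  have h7 : (0 : ℝ) ≤ G.edgeSet.ncard := Nat.cast_nonneg _
  have h8 : (G.edgeSet.ncard : ℝ) ≤ (2 * k) ^ 2 := by linarith
  exact_mod_cast h8

theorem le_invEx {k l m : ℕ} (hl : 4 ≤ l) (h : m ∈ sizes k (pathGraph l)) :
    m ≤ invEx k (pathGraph l) := le_csSup (sizes_bdd k l hl) h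

theorem invEx_le {k l : ℕ} (hl : 4 ≤ l) {b : ℝ} (hb : 0 ≤ b)
    (h : ∀ (n : ℕ) (G : SimpleGraph (Fin n)), exIn G (pathGraph l) < k →
      (G.edgeSet.ncard : ℝ) ≤ b) : (invEx k (pathGraph l) : ℝ) ≤ b := by
  rcases (sizes k (pathGraph l)).eq_empty_or_nonempty with h1 | h1
  · unfold invEx
    rw [h1]
    simpa using hb
  · obtain ⟨n, G, hG, hm⟩ := Nat.sSup_mem h1 (sizes_bdd k l hl)
    have h2 := h n G hG
    rw [hm] at h2
    exact h2

end Pool.Agent.R84.InvCommon
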