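import Pool.Agent.R84.Tiling
import Pool.Agent.R84.Hubs

/-!
# Hub systems together with pairs of cliques
-/

set_option autoImplicit false

namespace Pool.Agent.R84.Tiles

open Finset SimpleGraph Pool.Agent.R84.EG Pool.Agent.R84.Inv Pool.Agent.R84.Hubs

variable {V : Type} [Fintype V] [DecidableEq V] (G : SimpleGraph V) [DecidableRel G.Adj]

/-- the graph of the edges inside classes and between paired classes -/
def tile (S' : Finset V) (c : V → V) {M : ℕ} (g : V → ZMod M) (κ : ZMod M) : SimpleGraph V where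
  Adj x y := G.Adj x y ∧ x ∈ S' ∧ y ∈ S' ∧ (c x = c y ∨ g (c x) + g (c y) = κ)
  symm := ⟨fun x y h => ⟨h.1.symm, h.2.2.1, h.2.1, h.2.2.2.elim (fun h => Or.inl h.symm)
    fun h => Or.inr (by rw [add_comm]; exact h)⟩⟩
  loopless := ⟨fun x h => G.loopless.irrefl x h.1⟩

omit [Fintype V] in
theorem union_free {t s : ℕ} {X used : Finset V} (ht : 1 ≤ t) (hs : HubSys G (t - 1) X used s)
    (S' T : Finset V) (c : V → V) {M : ℕ} (g : V → ZMod M) (hg : Set.InjOn g T) (κ : ZMod M)
    (hST : ∀ x ∈ S', c x ∈ T) (hsize : ∀ a, (S'.filter fun x => c x = a).card ≤ t)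
    (hA : ∀ x ∈ S', x ∉ hs.A) (hhub : ∀ x ∈ S', ∀ v ∈ hs.A, x ∉ hs.hub v) :
    (pathGraph (2 * t + 1)).Free (hs.graph ⊔ tile G S' c g κ) := by
  classical
  rintro ⟨φ⟩
  have hadj : ∀ i j : Fin (2 * t + 1), (i : ℕ) + 1 = j →
      (hs.graph ⊔ tile G S' c g κ).Adj (φ i) (φ j) := fun i j hij =>
    φ.toHom.map_adj (pathGraph_adj.2 (Or.inl hij))
  have hno : ∀ x y, hs.graph.Adj x y → x ∉ S' ∧ y ∉ S' := by
    intro x y h
    rcases h with h | h
    · exact ⟨fun h' => hA x h' h.1, fun h' => hhub y h' x h.1 h.2⟩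
    · exact ⟨fun h' => hhub x h' y h.1 h.2, fun h' => hA y h' h.1⟩
  have inv1 : ∀ (i : ℕ) (hi : i < 2 * t + 1), φ ⟨i, hi⟩ ∈ S' ↔ φ ⟨0, by omega⟩ ∈ S' := by
    intro i
    induction i with
    | zero => intro _; rfl
    | succ i ih =>
      intro hi
      rw [← ih (by omega)]
      rcases hadj ⟨i, by omega⟩ ⟨i + 1, hi⟩ rfl with h | h
      · have := hno _ _ h
        exact ⟨fun h' => absurd h' this.2, fun h' => absurd h' this.1⟩
      · exact ⟨fun _ => h.2.1, fun _ => h.2.2.1⟩
  by_cases h0 : φ ⟨0, by omega⟩ ∈ S'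
  · obtain ⟨a, ha⟩ : ∃ a, a = c (φ ⟨0, by omega⟩) := ⟨_, rfl⟩
    have haT : a ∈ T := by rw [ha]; exact hST _ h0
    have inv2 : ∀ (i : ℕ) (hi : i < 2 * t + 1),
        c (φ ⟨i, hi⟩) = a ∨ g (c (φ ⟨i, hi⟩)) + g a = κ := by
      intro i
      induction i with
      | zero => intro _; exact Or.inl ha.symm
      | succ i ih =>
        intro hi
        have h1 := ih (by omega)
        rcases hadj ⟨i, by omega⟩ ⟨i + 1, hi⟩ rfl with h | h
        · exact absurd ((inv1 _ _).2 h0) (hno _ _ h).2
        · rcases h.2.2.2 with h2 | h2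
          · rw [← h2]
            exact h1
          · rcases h1 with h1 | h1
            · right
              rw [h1, add_comm] at h2
              exact h2
            · left
              have h3 : g (c (φ ⟨i + 1, hi⟩)) = g a := by
                have := h1.trans h2.symm
                exact (add_left_cancel this).symm
              exact hg (hST _ h.2.2.1) haT h3
    -- the component
    obtain ⟨D, hD⟩ : ∃ D, D = S'.filter fun x => c x = a ∨ g (c x) + g a = κ := ⟨_, rfl⟩
    have h1 : (univ.image φ) ⊆ D := by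
      intro y hy
      obtain ⟨⟨i, hi⟩, _, rfl⟩ := mem_image.1 hy
      rw [hD, mem_filter]
      exact ⟨(inv1 i hi).2 h0, inv2 i hi⟩
    have h2 := card_le_card h1
    rw [card_image_of_injective univ (f := fun i => φ i) φ.injective, card_univ,
      Fintype.card_fin] at h2
    obtain ⟨B, hB⟩ : ∃ B, B = T.filter fun b => b = a ∨ g b + g a = κ := ⟨_, rfl⟩
    have h3 : D.card = ∑ b ∈ B, (D.filter fun x => c x = b).card := by
      apply card_eq_sum_card_fiberwise
      intro x hx
      rw [hD, Finset.mem_coe, mem_filter] at hx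
      rw [hB, Finset.mem_coe, mem_filter]
      exact ⟨hST x hx.1, hx.2⟩
    have h4 : ∀ b ∈ B, (D.filter fun x => c x = b).card ≤ t := by
      intro b _
      refine le_trans (card_le_card ?_) (hsize b)
      intro x hx
      rw [mem_filter, hD, mem_filter] at hx
      exact mem_filter.2 ⟨hx.1.1, hx.2⟩
    have h5 := Finset.sum_le_card_nsmul B _ _ h4
    rw [← h3, smul_eq_mul] at h5
    have h6 : B.card ≤ 2 := by
      have h7 : (B.image g) ⊆ {g a, κ - g a} := by
        intro z hz
        obtain ⟨b, hb, rfl⟩ := mem_image.1 hz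
        rw [hB, mem_filter] at hb
        rw [mem_insert, mem_singleton]
        rcases hb.2 with h8 | h8
        · left
          rw [h8]
        · right
          rw [← h8]
          ring
      have h8 : (B.image g).card = B.card := by
        apply card_image_of_injOn
        intro x hx y hy hxy
        rw [hB, Finset.mem_coe, mem_filter] at hx hy
        exact hg hx.1 hy.1 hxy
      rw [← h8]
      exact (card_le_card h7).trans card_le_two
    have h7 : B.card * t ≤ 2 * t := Nat.mul_le_mul_right t h6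
    omega
  · apply hs.graph_free (2 * t + 1) (by omega)
    refine ⟨⟨⟨φ, ?_⟩, φ.injective⟩⟩
    intro i j hij
    have h1 := φ.toHom.map_adj hij
    rcases h1 with h1 | h1
    · exact h1
    · exact absurd ((inv1 i.1 i.2).1 h1.2.1) h0

theorem tile_count {t M : ℕ} (hM : 1 ≤ M) (S' : Finset V) (c : V → V) (g : V → ZMod M)
    (hcl : ∀ x ∈ S', ∀ y ∈ S', c x = c y → x ≠ y → G.Adj x y)
    (hsize : ∀ x ∈ S', (S'.filter fun y => c y = c x).card = t) :
    ∃ κ : ZMod M, S'.card * ((M - 1) * (t - 1)) + E G S' ≤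
      M * (2 * (tile G S' c g κ).edgeSet.ncard) := by
  classical
  have : NeZero M := ⟨by omega⟩
  obtain ⟨D, hD⟩ : ∃ D : ZMod M → ℕ, D = fun κ => ∑ v ∈ S', (S'.filter fun y =>
    (tile G S' c g κ).Adj v y).card := ⟨_, rfl⟩
  obtain ⟨κ, _, hκ⟩ := exists_max_image (univ : Finset (ZMod M)) D univ_nonempty
  refine ⟨κ, ?_⟩
  have h1 : ∑ κ, D κ ≤ M * D κ := by
    have := Finset.sum_le_card_nsmul univ D _ hκ
    rwa [card_univ, ZMod.card, smul_eq_mul] at this
  have h2 : D κ ≤ 2 * (tile G S' c g κ).edgeSet.ncard := by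
    rw [← E_univ, hD]
    unfold E nb
    calc ∑ v ∈ S', (S'.filter fun y => (tile G S' c g κ).Adj v y).card
        ≤ ∑ v ∈ S', (univ.filter fun y => (tile G S' c g κ).Adj v y).card :=
          Finset.sum_le_sum fun v _ => card_le_card (filter_subset_filter _ (subset_univ _))
      _ ≤ ∑ v, (univ.filter fun y => (tile G S' c g κ).Adj v y).card :=
          Finset.sum_le_sum_of_subset (subset_univ _)
  refine le_trans ?_ (h1.trans (Nat.mul_le_mul_left M h2))
  rw [hD]
  simp only
  rw [sum_comm]
  have h3 : ∀ v ∈ S', (M - 1) * (t - 1) + (nb G S' v).card ≤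
      ∑ κ : ZMod M, (S'.filter fun y => (tile G S' c g κ).Adj v y).card := by
    intro v hv
    have h4 : ∑ κ : ZMod M, (S'.filter fun y => (tile G S' c g κ).Adj v y).card =
        ∑ y ∈ S', (univ.filter fun κ : ZMod M => (tile G S' c g κ).Adj v y).card := by
      simp_rw [card_filter]
      exact sum_comm
    rw [h4]
    have h5 : ∀ y ∈ S', (if G.Adj v y then 1 else 0) +
        (M - 1) * (if c y = c v ∧ y ≠ v then 1 else 0) ≤
        (univ.filter fun κ : ZMod M => (tile G S' c g κ).Adj v y).card := by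
      intro y hy
      by_cases hvy : G.Adj v y
      · rw [if_pos hvy]
        by_cases hc : c y = c v
        · have h6 : (univ.filter fun κ : ZMod M => (tile G S' c g κ).Adj v y) = univ := by
            apply filter_true_of_mem
            intro κ _
            exact ⟨hvy, hv, hy, Or.inl hc.symm⟩
          rw [h6, card_univ, ZMod.card]
          split_ifs <;> omega
        · rw [if_neg (fun h => hc h.1), mul_zero, add_zero]
          apply card_pos.2
          exact ⟨g (c v) + g (c y), mem_filter.2 ⟨mem_univ _, hvy, hv, hy, Or.inr rfl⟩⟩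
      · rw [if_neg hvy, if_neg]
        · simp
        · rintro ⟨h6, h7⟩
          exact hvy (hcl v hv y hy h6.symm h7.symm)
    refine le_trans ?_ (Finset.sum_le_sum h5)
    rw [sum_add_distrib, ← mul_sum, ← card_filter, ← card_filter, add_comm]
    have h6 : (S'.filter fun y => c y = c v ∧ y ≠ v) = (S'.filter fun y => c y = c v).erase v := by
      ext y
      simp only [mem_filter, mem_erase]
      tauto
    have h7 : v ∈ S'.filter fun y => c y = c v := mem_filter.2 ⟨hv, rfl⟩
    rw [h6, card_erase_of_mem h7, hsize v hv]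
    rfl
  refine le_trans ?_ (Finset.sum_le_sum h3)
  rw [sum_add_distrib, sum_const, smul_eq_mul]
  rfl

theorem edges_union {t s : ℕ} {X used : Finset V} (hs : HubSys G t X used s)
    (S' : Finset V) (c : V → V) {M : ℕ} (g : V → ZMod M) (κ : ZMod M)
    (hA : ∀ x ∈ S', x ∉ hs.A) (hhub : ∀ x ∈ S', ∀ v ∈ hs.A, x ∉ hs.hub v) :
    t * hs.A.card + (tile G S' c g κ).edgeSet.ncard ≤
      (hs.graph ⊔ tile G S' c g κ).edgeSet.ncard := by
  classical
  rw [edgeSet_sup, Set.ncard_union_eq _ (Set.toFinite _) (Set.toFinite _)]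
  · exact Nat.add_le_add_right hs.edges _
  · rw [disjoint_edgeSet, SimpleGraph.disjoint_left]
    intro x y h h'
    have h1 : x ∈ S' := h'.2.1
    rcases h with h | h
    · exact hA x h1 h.1
    · exact hhub x h1 y h.1 h.2

end Pool.Agent.R84.Tiles
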