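import Mathlib

/-!
# Almost perfect tilings with cliques
-/

set_option autoImplicit false

namespace Pool.Agent.R84.Tiling

open Finset SimpleGraph Function

variable {V : Type} [Fintype V] [DecidableEq V] (G : SimpleGraph V) [DecidableRel G.Adj]

/-- the class with the label `a` -/
def cls (S : Finset V) (c : V → V) (a : V) : Finset V := S.filter fun x => c x = a

/-- the size of the class with the label `a` -/
def sz (S : Finset V) (c : V → V) (a : V) : ℕ := (cls S c a).card

/-- sum of squares of the sizes -/
def pot (S : Finset V) (c : V → V) : ℤ := ∑ a, (sz S c a : ℤ) ^ 2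

/-- partitions into cliques of size at most `t` -/
def Valid (t : ℕ) (S : Finset V) (c : V → V) : Prop :=
  (∀ x ∈ S, ∀ y ∈ S, c x = c y → x ≠ y → G.Adj x y) ∧ ∀ a, sz S c a ≤ t

theorem mem_cls {S : Finset V} {c : V → V} {a x : V} : x ∈ cls S c a ↔ x ∈ S ∧ c x = a := by
  simp [cls]

theorem sz_update {S : Finset V} {c : V → V} {x q : V} (hx : x ∈ S) (hq : q ≠ c x) (b : V) :
    (sz S (update c x q) b : ℤ) = sz S c b + (if b = q then 1 else 0) -
      (if b = c x then 1 else 0) := by
  unfold sz
  by_cases h : b = q
  · subst h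
    have h1 : cls S (update c x b) b = insert x (cls S c b) := by
      ext y
      rw [mem_insert, mem_cls, mem_cls]
      by_cases hy : y = x
      · subst hy
        simp [hx]
      · simp [hy]
    have h2 : x ∉ cls S c b := by
      rw [mem_cls]
      rintro ⟨_, h⟩
      exact hq h.symm
    rw [h1, card_insert_of_notMem h2, if_pos rfl, if_neg hq]
    push_cast
    ring
  · rw [if_neg h]
    have h1 : cls S (update c x q) b = (cls S c b).erase x := by
      ext y
      rw [mem_erase, mem_cls, mem_cls]
      by_cases hy : y = x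
      · subst hy
        simp [Ne.symm h]
      · simp [hy]
    rw [h1]
    by_cases h' : b = c x
    · have h2 : x ∈ cls S c b := mem_cls.2 ⟨hx, h'.symm⟩
      rw [card_erase_of_mem h2, if_pos h']
      have : 0 < (cls S c b).card := card_pos.2 ⟨x, h2⟩
      push_cast [Nat.cast_sub this]
      ring
    · have h2 : x ∉ cls S c b := by
        rw [mem_cls]
        rintro ⟨_, h⟩
        exact h' h.symm
      rw [erase_eq_of_notMem h2, if_neg h']
      ring

theorem pot_update {S : Finset V} {c : V → V} {x q : V} (hx : x ∈ S) (hq : q ≠ c x) :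
    pot S (update c x q) = pot S c + 2 * ((sz S c q : ℤ) - sz S c (c x)) + 2 := by
  unfold pot
  have h1 : ∀ b, (sz S (update c x q) b : ℤ) ^ 2 = (sz S c b : ℤ) ^ 2 +
      (if b = q then 2 * (sz S c b : ℤ) + 1 else 0) +
      (if b = c x then - 2 * (sz S c b : ℤ) + 1 else 0) := by
    intro b
    rw [sz_update hx hq]
    by_cases h : b = q
    · have h' : b ≠ c x := fun h' => hq (h ▸ h')
      rw [if_pos h, if_pos h, if_neg h', if_neg h']
      ring
    · by_cases h' : b = c x
      · rw [if_neg h, if_neg h, if_pos h', if_pos h']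
        ring
      · rw [if_neg h, if_neg h, if_neg h', if_neg h']
        ring
  rw [Finset.sum_congr rfl fun b _ => h1 b, sum_add_distrib, sum_add_distrib, sum_ite_eq' univ q,
    sum_ite_eq' univ (c x)]
  simp only [mem_univ, if_true]
  ring

section max

variable {G}
variable {t : ℕ} {S : Finset V} {c : V → V} (hv : Valid G t S c)
  (hmax : ∀ c', Valid G t S c' → pot S c' ≤ pot S c)

include hv hmax

theorem move_one {x q : V} (hx : x ∈ S) (hq : q ≠ c x) (h1 : sz S c (c x) ≤ sz S c q)
    (h2 : sz S c q < t) : ∃ y ∈ cls S c q, ¬ G.Adj x y := by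
  by_contra hcon
  push Not at hcon
  have h3 : Valid G t S (update c x q) := by
    refine ⟨?_, ?_⟩
    · intro y hy z hz hyz hne
      by_cases hyx : y = x
      · subst hyx
        rw [update_self, update_of_ne hne.symm] at hyz
        exact hcon z (mem_cls.2 ⟨hz, hyz.symm⟩)
      · by_cases hzx : z = x
        · subst hzx
          rw [update_self, update_of_ne hne] at hyz
          exact (hcon y (mem_cls.2 ⟨hy, hyz⟩)).symm
        · rw [update_of_ne hyx, update_of_ne hzx] at hyz
          exact hv.1 y hy z hz hyz hne
    · intro b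
      have h4 := sz_update hx hq b
      have h5 := hv.2 b
      by_cases h : b = q
      · have h' : b ≠ c x := fun h' => hq (h ▸ h')
        rw [if_pos h, if_neg h'] at h4
        subst h
        omega
      · rw [if_neg h] at h4
        split_ifs at h4 <;> omega
  have h4 := hmax _ h3
  rw [pot_update hx hq] at h4
  omega

theorem move_two {x q a r : V} (hx : x ∈ S) (hp : sz S c (c x) < t) (hqt : sz S c q = t)
    (hcomp : ∀ y ∈ cls S c q, G.Adj x y) (ha : a ∈ cls S c q) (hr : r ≠ c x)
    (hrs : sz S c r = sz S c (c x)) : ∃ y ∈ cls S c r, ¬ G.Adj a y := by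
  by_contra hcon
  push Not at hcon
  have hq : q ≠ c x := by
    rintro rfl
    omega
  have hrq : r ≠ q := by
    rintro rfl
    omega
  obtain ⟨haS, hac⟩ := mem_cls.1 ha
  have hax : a ≠ x := by
    rintro rfl
    exact hq hac.symm
  obtain ⟨c', hc'⟩ : ∃ c', c' = update c x q := ⟨_, rfl⟩
  have hca : c' a = q := by rw [hc', update_of_ne hax, hac]
  have hr' : r ≠ c' a := by rw [hca]; exact hrq
  have h3 : Valid G t S (update c' a r) := by
    refine ⟨?_, ?_⟩
    · have aux : ∀ y ∈ S, ∀ z ∈ S, y ≠ z → y = a ∨ (y = x ∧ z ≠ a) →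
          update c' a r y = update c' a r z → G.Adj y z := by
        intro y hy z hz hne h hyz
        rcases h with h | ⟨h, hza⟩
        · subst h
          rw [update_self, update_of_ne hne.symm, hc'] at hyz
          by_cases hzx : z = x
          · subst hzx
            rw [update_self] at hyz
            exact absurd hyz hrq
          · rw [update_of_ne hzx] at hyz
            exact hcon z (mem_cls.2 ⟨hz, hyz.symm⟩)
        · subst h
          rw [update_of_ne hax.symm, update_of_ne hza, hc', update_self, update_of_ne hne.symm]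
            at hyz
          exact hcomp z (mem_cls.2 ⟨hz, hyz.symm⟩)
      intro y hy z hz hyz hne
      by_cases h1 : y = a ∨ (y = x ∧ z ≠ a)
      · exact aux y hy z hz hne h1 hyz
      · by_cases h2 : z = a ∨ (z = x ∧ y ≠ a)
        · exact (aux z hz y hy hne.symm h2 hyz.symm).symm
        · push Not at h1 h2
          have hyx : y ≠ x := fun h => h2.1 (h1.2 h)
          have hzx : z ≠ x := fun h => h1.1 (h2.2 h)
          rw [update_of_ne h1.1, update_of_ne h2.1, hc', update_of_ne hyx, update_of_ne hzx] at hyz
          exact hv.1 y hy z hz hyz hne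
    · intro b
      have h4 := sz_update (c := c') haS hr' b
      have h5 := sz_update hx hq b
      rw [← hc'] at h5
      have h6 := hv.2 b
      rw [hca] at h4
      by_cases hbr : b = r
      · rw [if_pos hbr] at h4
        subst hbr
        rw [if_neg hrq] at h4 h5
        rw [if_neg hr] at h5
        omega
      · rw [if_neg hbr] at h4
        by_cases hbq : b = q
        · rw [if_pos hbq] at h4 h5
          split_ifs at h5 <;> omega
        · rw [if_neg hbq] at h4 h5
          split_ifs at h5 <;> omega
  have h4 := hmax _ h3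
  rw [pot_update haS hr', hca, hc', pot_update hx hq, sz_update hx hq, sz_update hx hq,
    if_neg hrq, if_neg hr, if_pos rfl, if_neg hq] at h4
  omega

/-- There are few classes of size `j`, compared to the number of vertices in smaller classes. -/
theorem few (hdeg : ∀ v ∈ S, 2 * t * (S.filter fun y => ¬ G.Adj v y).card ≤ 2 * S.card + t)
    (j : ℕ) (hj1 : 1 ≤ j) (hjt : j < t) :
    (univ.filter fun a => sz S c a = j).card ≤
      (∑ a ∈ univ.filter (fun a => sz S c a < j), sz S c a) + t := by
  obtain ⟨J, hJ⟩ : ∃ J, J = univ.filter fun a => sz S c a = j := ⟨_, rfl⟩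
  have hJmem : ∀ a, a ∈ J ↔ sz S c a = j := by
    intro a
    rw [hJ, mem_filter]
    exact ⟨fun h => h.2, fun h => ⟨mem_univ _, h⟩⟩
  rw [← hJ]
  by_contra hcon
  push Not at hcon
  obtain ⟨L, hL⟩ : ∃ L, L = ∑ a ∈ univ.filter (fun a => sz S c a < j), sz S c a := ⟨_, rfl⟩
  rw [← hL] at hcon
  obtain ⟨U, hU⟩ : ∃ U, U = S.filter fun x => sz S c (c x) = j := ⟨_, rfl⟩
  have hUmem : ∀ x, x ∈ U ↔ x ∈ S ∧ sz S c (c x) = j := by
    intro x
    rw [hU, mem_filter]
  have hUcard : U.card = j * J.card := by
    have h1 : U.card = ∑ a ∈ J, (U.filter fun x => c x = a).card := by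
      apply card_eq_sum_card_fiberwise
      intro x hx
      exact (hJmem _).2 ((hUmem x).1 hx).2
    have h2 : ∀ a ∈ J, (U.filter fun x => c x = a).card = j := by
      intro a ha
      rw [← (hJmem a).1 ha]
      unfold sz
      congr 1
      ext x
      rw [mem_filter, hUmem, mem_cls]
      constructor
      · rintro ⟨⟨h3, _⟩, h4⟩
        exact ⟨h3, h4⟩
      · rintro ⟨h3, h4⟩
        refine ⟨⟨h3, ?_⟩, h4⟩
        rw [h4]
        exact (hJmem a).1 ha
    rw [h1, Finset.sum_congr rfl h2, sum_const, smul_eq_mul, mul_comm]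
  -- one non-neighbour on average
  have key : ∀ q, j ≤ sz S c q → U.card ≤ ∑ x ∈ U, ((cls S c q).filter fun y => ¬ G.Adj x y).card := by
    intro q hq
    by_cases hall : ∀ x ∈ U, ∃ y ∈ cls S c q, ¬ G.Adj x y
    · calc U.card = ∑ x ∈ U, 1 := card_eq_sum_ones U
        _ ≤ _ := by
          refine Finset.sum_le_sum fun x hx => ?_
          obtain ⟨y, hy, hxy⟩ := hall x hx
          exact card_pos.2 ⟨y, mem_filter.2 ⟨hy, hxy⟩⟩
    · push Not at hall
      obtain ⟨x, hx, hxc⟩ := hall
      obtain ⟨hxS, hxj⟩ := (hUmem x).1 hx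
      have hqx : q ≠ c x := by
        rintro rfl
        exact G.loopless.irrefl x (hxc x (mem_cls.2 ⟨hxS, rfl⟩))
      have hqt : sz S c q = t := by
        by_contra hne
        have h1 : sz S c q < t := lt_of_le_of_ne (hv.2 q) hne
        obtain ⟨y, hy, hxy⟩ := move_one hv hmax hxS hqx (by omega) h1
        exact hxy (hxc y hy)
      have h1 : ∀ a ∈ cls S c q, J.card - 1 ≤ (U.filter fun y => ¬ G.Adj y a).card := by
        intro a ha
        have h2 : J.erase (c x) ⊆ (U.filter fun y => ¬ G.Adj y a).image c := by
          intro r hr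
          rw [mem_erase, hJmem] at hr
          obtain ⟨y, hy, hay⟩ := move_two hv hmax hxS (by omega) hqt hxc ha hr.1 (by omega)
          obtain ⟨hyS, hyr⟩ := mem_cls.1 hy
          refine mem_image.2 ⟨y, ?_, hyr⟩
          rw [mem_filter, hUmem]
          refine ⟨⟨hyS, ?_⟩, fun h => hay h.symm⟩
          rw [hyr]
          exact hr.2
        have h3 := (card_le_card h2).trans card_image_le
        rw [card_erase_of_mem ((hJmem _).2 hxj)] at h3
        exact h3
      have h2 : ∑ x ∈ U, ((cls S c q).filter fun y => ¬ G.Adj x y).card =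
          ∑ a ∈ cls S c q, (U.filter fun y => ¬ G.Adj y a).card := by
        simp_rw [card_filter]
        exact sum_comm
      rw [h2]
      have h3 : (cls S c q).card * (J.card - 1) ≤
          ∑ a ∈ cls S c q, (U.filter fun y => ¬ G.Adj y a).card := by
        rw [← smul_eq_mul]
        exact card_nsmul_le_sum _ _ _ h1
      refine le_trans ?_ h3
      have h4 : (cls S c q).card = t := hqt
      rw [h4, hUcard]
      obtain ⟨u, hu⟩ : ∃ u, J.card = u + 1 := ⟨J.card - 1, by omega⟩
      obtain ⟨w, hw⟩ : ∃ w, t = j + 1 + w := ⟨t - (j + 1), by omega⟩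
      rw [hu, Nat.add_sub_cancel]
      rw [hu] at hcon
      have h5 : t ≤ u := by omega
      rw [hw] at h5 ⊢
      nlinarith
  -- counting non-neighbours
  obtain ⟨N, hN⟩ : ∃ N, N = univ.filter fun a => j ≤ sz S c a := ⟨_, rfl⟩
  have hNmem : ∀ a, a ∈ N ↔ j ≤ sz S c a := by
    intro a
    rw [hN, mem_filter]
    exact ⟨fun h => h.2, fun h => ⟨mem_univ _, h⟩⟩
  have h1 : N.card * U.card ≤ ∑ x ∈ U, (S.filter fun y => ¬ G.Adj x y).card := by
    calc N.card * U.card = ∑ q ∈ N, U.card := by rw [sum_const, smul_eq_mul]
      _ ≤ ∑ q ∈ N, ∑ x ∈ U, ((cls S c q).filter fun y => ¬ G.Adj x y).card :=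
          Finset.sum_le_sum fun q hq => key q ((hNmem q).1 hq)
      _ = ∑ x ∈ U, ∑ q ∈ N, ((cls S c q).filter fun y => ¬ G.Adj x y).card := sum_comm
      _ ≤ ∑ x ∈ U, (S.filter fun y => ¬ G.Adj x y).card := by
          refine Finset.sum_le_sum fun x _ => ?_
          rw [← card_biUnion]
          · apply card_le_card
            intro y hy
            obtain ⟨q, _, hy⟩ := mem_biUnion.1 hy
            rw [mem_filter, mem_cls] at hy
            exact mem_filter.2 ⟨hy.1.1, hy.2⟩
          · intro q _ q' _ hne
            rw [Function.onFun, Finset.disjoint_left]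
            intro y hy hy'
            rw [mem_filter, mem_cls] at hy hy'
            exact hne (hy.1.2.symm.trans hy'.1.2)
  have h2 : 2 * t * ∑ x ∈ U, (S.filter fun y => ¬ G.Adj x y).card ≤ U.card * (2 * S.card + t) := by
    rw [mul_sum, ← smul_eq_mul]
    exact sum_le_card_nsmul _ _ _ fun x hx => hdeg x ((hUmem x).1 hx).1
  have hU0 : 0 < U.card := by
    rw [hUcard]
    apply Nat.mul_pos hj1
    omega
  have h3 : 2 * t * N.card ≤ 2 * S.card + t := by
    have h4 : U.card * (2 * t * N.card) ≤ U.card * (2 * S.card + t) := by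
      refine le_trans ?_ h2
      have := Nat.mul_le_mul_left (2 * t) h1
      calc U.card * (2 * t * N.card) = 2 * t * (N.card * U.card) := by ring
        _ ≤ _ := this
    exact Nat.le_of_mul_le_mul_left h4 hU0
  have h4 : S.card = L + ∑ a ∈ N, sz S c a := by
    have h5 : S.card = ∑ a, sz S c a := by
      unfold sz cls
      apply card_eq_sum_card_fiberwise
      intro x _
      exact mem_univ _
    rw [h5, hL, hN, ← Finset.sum_filter_add_sum_filter_not univ (fun a => sz S c a < j)]
    congr 1
    apply Finset.sum_congr _ fun _ _ => rfl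
    ext a
    simp
  have h5 : (∑ a ∈ N, sz S c a) + J.card ≤ N.card * t := by
    have h6 : J.card = ∑ a ∈ N, if sz S c a = j then 1 else 0 := by
      rw [← card_filter]
      congr 1
      ext a
      rw [mem_filter, hJmem, hNmem]
      omega
    rw [h6, ← sum_add_distrib, ← smul_eq_mul]
    refine sum_le_card_nsmul _ _ _ fun a _ => ?_
    have := hv.2 a
    split_ifs <;> omega
  nlinarith

end max

/-- If every vertex of `S` has at most `|S|/t + 1/2` non-neighbours in `S` (itself included), then `S`
has a partition into cliques with at most `t` vertices such that all but a bounded number of vertices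
are in cliques with `t` vertices. -/
theorem exists_tiling (t : ℕ) (ht : 1 ≤ t) (S : Finset V)
    (hdeg : ∀ v ∈ S, 2 * t * (S.filter fun y => ¬ G.Adj v y).card ≤ 2 * S.card + t) :
    ∃ c : V → V, (∀ x ∈ S, ∀ y ∈ S, c x = c y → x ≠ y → G.Adj x y) ∧
      (∀ a, (S.filter fun x => c x = a).card ≤ t) ∧
      (S.filter fun x => (S.filter fun y => c y = c x).card < t).card ≤ t * (t + 1) ^ t := by
  classical
  obtain ⟨c, hc, hmax⟩ := exists_max_image (univ.filter fun c : V → V => Valid G t S c) (pot S)
    ⟨id, mem_filter.2 ⟨mem_univ _, fun x _ y _ h hne => absurd h hne, fun a => by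
      refine le_trans ?_ ht
      unfold sz
      apply card_le_one.2
      intro x hx y hy
      exact (mem_cls.1 hx).2.trans (mem_cls.1 hy).2.symm⟩⟩
  have hv : Valid G t S c := (mem_filter.1 hc).2
  have hmax' : ∀ c', Valid G t S c' → pot S c' ≤ pot S c := fun c' h =>
    hmax c' (mem_filter.2 ⟨mem_univ _, h⟩)
  refine ⟨c, hv.1, hv.2, ?_⟩
  have hrec : ∀ j, j ≤ t → (∑ a ∈ univ.filter (fun a => sz S c a < j), sz S c a) + t ≤
      t * (t + 1) ^ j := by
    intro j
    induction j with
    | zero => simp
    | succ j ih =>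
      intro hj
      have h1 := ih (by omega)
      have h2 : ∑ a ∈ univ.filter (fun a => sz S c a < j + 1), sz S c a =
          (∑ a ∈ univ.filter (fun a => sz S c a < j), sz S c a) +
            j * (univ.filter fun a => sz S c a = j).card := by
        have h3 : (univ.filter fun a => sz S c a < j + 1) =
            (univ.filter fun a => sz S c a < j) ∪ (univ.filter fun a => sz S c a = j) := by
          ext a
          simp only [mem_filter, mem_univ, true_and, mem_union]
          omega
        rw [h3, sum_union]
        · congr 1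
          rw [Finset.sum_congr rfl fun a ha => (mem_filter.1 ha).2, sum_const, smul_eq_mul, mul_comm]
        · rw [Finset.disjoint_left]
          intro a ha ha'
          have h4 := (mem_filter.1 ha).2
          have h5 := (mem_filter.1 ha').2
          omega
      rw [h2]
      obtain ⟨L, hL⟩ : ∃ L, L = ∑ a ∈ univ.filter (fun a => sz S c a < j), sz S c a := ⟨_, rfl⟩
      have h4 : j * (univ.filter fun a => sz S c a = j).card ≤ t * (L + t) := by
        rcases Nat.eq_zero_or_pos j with h5 | h5
        · subst h5
          simp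
        · have h6 := few hv hmax' hdeg j h5 (by omega)
          rw [← hL] at h6
          exact Nat.mul_le_mul (by omega) h6
      rw [← hL] at h1 ⊢
      calc L + j * (univ.filter fun a => sz S c a = j).card + t ≤ (t + 1) * (L + t) := by nlinarith
        _ ≤ (t + 1) * (t * (t + 1) ^ j) := Nat.mul_le_mul_left _ h1
        _ = t * (t + 1) ^ (j + 1) := by ring
  have h1 := hrec t le_rfl
  have h2 : (S.filter fun x => (S.filter fun y => c y = c x).card < t).card =
      ∑ a ∈ univ.filter (fun a => sz S c a < t), sz S c a := by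
    rw [card_eq_sum_card_fiberwise (f := c) (t := univ.filter fun a => sz S c a < t)]
    · refine Finset.sum_congr rfl fun a ha => ?_
      unfold sz
      congr 1
      ext x
      rw [mem_filter, mem_filter, mem_cls]
      constructor
      · rintro ⟨⟨h3, _⟩, h4⟩
        exact ⟨h3, h4⟩
      · rintro ⟨h3, h4⟩
        refine ⟨⟨h3, ?_⟩, h4⟩
        rw [h4]
        exact (mem_filter.1 ha).2
    · intro x hx
      have := (mem_filter.1 hx).2
      simp only [coe_filter, mem_univ, true_and]
      exact this
  rw [h2]
  omega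

end Pool.Agent.R84.Tiling
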